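import Pool.Agent.H28.BR.NSW
import Pool.Agent.H28.BR.Stm2

set_option autoImplicit false

/-! Project BR2 (helper28), module NSB2 (writer: helper68): the twisted non-squares. -/

namespace Pool.Agent.H28.BR2

open Finset Filter Topology MeasureTheory Pool.Agent.H306R2.RZ Pool.Agent.H306R2.RG
  Pool.Agent.Q122.FM Pool.Agent.Q122.MB Pool.Agent.H28.BR
open Pool.Agent.Helper112 (ee)

noncomputable section

theorem gd_mono {L L' : ℝ} (hL : 0 ≤ L) (h : L ≤ L') (x : ℝ) : gd L x ≤ gd L' x := by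
  unfold gd
  have hn := nd_nonneg x
  have hL' : 0 ≤ L' := hL.trans h
  have h1 : 0 < 1 + 2 * L * nd x := by positivity
  have h2 : 0 < 1 + 2 * L' * nd x := by positivity
  rw [div_le_div_iff₀ h1 h2]
  nlinarith [mul_nonneg hn hL]

theorem Psi_mono (s : ℕ) {L L' : ℝ} (hL : 0 ≤ L) (h : L ≤ L') (β : ℝ) : Psi s L β ≤ Psi s L' β :=
  sum_le_sum fun _ _ => gd_mono hL h _

theorem N1_eq_NA (e : ℤ) (k : ℕ → ℝ) (N d : ℕ) :
    N1 e k N d = NA e (fun n => if IsSquare n then 0 else k n) N d := by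
  unfold N1 NA
  rw [Finset.sum_filter, Finset.sum_filter]
  apply sum_congr rfl
  intro n _
  by_cases h1 : Odd n
  · by_cases h2 : IsSquare n
    · simp [h2]
    · simp [h1, h2]
  · simp [h1]

theorem t_NSB2 (kbi : S_KBI) (kin : S_KIN) (vsm : S_VSM) (ptw : S_PTW) : S_NSB2 := by
  obtain ⟨⟨C0, hC0, k0⟩, kra⟩ := kbi
  obtain ⟨C1, hC1, kin⟩ := kin
  obtain ⟨C2, hC2, vsm⟩ := vsm
  have hC00 : 0 < C0 := by linarith
  refine ⟨2 * C0 * C1 * C2, by positivity, ?_⟩
  intro a ha01 e he β hβ B hB c hc8 hco X A N θ hX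
  set M : ℕ := N * B with hM
  set S : ℝ := ∑ b ∈ Icc 1 B, β b with hS
  have hS0 : 0 ≤ S := sum_nonneg fun b _ => hβ b
  have hB1 : (1 : ℝ) ≤ B := by exact_mod_cast hB
  have hB0 : (0 : ℝ) < B := by linarith
  have hX0 : (0 : ℝ) < X := by exact_mod_cast hX
  have hXB : 1 ≤ X * B ^ 2 := Nat.one_le_iff_ne_zero.2 (by positivity)
  set z0 : ℝ := 1 / (8 * (X : ℝ)) / (B : ℝ) ^ 2 with hz0
  have hz0p : 0 < z0 := by positivity
  have hz0' : z0 = 1 / ((8 : ℕ) * ((X * B ^ 2 : ℕ) : ℝ)) := by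
    rw [hz0]
    push_cast
    field_simp
  have hL : ∀ m : ℕ, (0 : ℝ) ≤ (X : ℝ) / (8 * m) + 1 := fun m => by positivity
  have hL2 : ∀ m : ℕ, (0 : ℝ) ≤ ((X * B ^ 2 : ℕ) : ℝ) / (8 * m) + 1 := fun m => by positivity
  have hPL : ∀ (s m : ℕ) (t : ℝ), Psi s ((X : ℝ) / (8 * m) + 1) t ≤
      Psi s (((X * B ^ 2 : ℕ) : ℝ) / (8 * m) + 1) t := by
    intro s m t
    apply Psi_mono s (hL m)
    have h1 : (X : ℝ) ≤ ((X * B ^ 2 : ℕ) : ℝ) := by
      push_cast
      have : (1 : ℝ) ≤ (B : ℝ) ^ 2 := one_le_pow₀ hB1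
      nlinarith
    have h2 : (X : ℝ) / (8 * m) ≤ ((X * B ^ 2 : ℕ) : ℝ) / (8 * m) :=
      div_le_div_of_nonneg_right h1 (by positivity)
    linarith
  -- step 1: the sum over `q`
  have step1 : ‖∑ d ∈ (Icc 1 X).filter (fun d => d % 8 = c),
      ((∑ q ∈ (Icc 1 A).filter (fun q => q ^ 2 ∣ d), ((ArithmeticFunction.moebius q : ℤ) : ℝ) : ℝ) : ℂ) *
        (ee (θ * d) * (EBN e a β B N d (1 / (8 * (d : ℝ))) : ℂ))‖ ≤
      ∑ q ∈ Icc 1 A, ‖∑ d ∈ (Icc 1 X).filter (fun d => q ^ 2 ∣ d ∧ d % 8 = c),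
        ee (θ * d) * (EBN e a β B N d (1 / (8 * (d : ℝ))) : ℂ)‖ := by
    have e1 : ∑ d ∈ (Icc 1 X).filter (fun d => d % 8 = c),
      ((∑ q ∈ (Icc 1 A).filter (fun q => q ^ 2 ∣ d), ((ArithmeticFunction.moebius q : ℤ) : ℝ) : ℝ) : ℂ) *
        (ee (θ * d) * (EBN e a β B N d (1 / (8 * (d : ℝ))) : ℂ)) =
        ∑ q ∈ Icc 1 A, (((ArithmeticFunction.moebius q : ℤ) : ℝ) : ℂ) *
          ∑ d ∈ (Icc 1 X).filter (fun d => q ^ 2 ∣ d ∧ d % 8 = c),
        ee (θ * d) * (EBN e a β B N d (1 / (8 * (d : ℝ))) : ℂ) := by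
      simp_rw [Complex.ofReal_sum, sum_filter, Finset.mul_sum]
      rw [Finset.sum_comm]
      apply sum_congr rfl
      intro d _
      by_cases hd : d % 8 = c
      · rw [if_pos hd, Finset.sum_mul]
        apply sum_congr rfl
        intro q _
        by_cases had : q ^ 2 ∣ d
        · rw [if_pos had, if_pos ⟨had, hd⟩]
        · rw [if_neg had, if_neg (fun h => had h.1), zero_mul, mul_zero]
      · rw [if_neg hd]
        symm
        apply sum_eq_zero
        intro q _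
        rw [if_neg (fun h => hd h.2), mul_zero]
    rw [e1]
    refine (norm_sum_le _ _).trans (sum_le_sum fun q _ => ?_)
    rw [norm_mul, Complex.norm_real, Real.norm_eq_abs]
    apply mul_le_of_le_one_left (norm_nonneg _)
    exact_mod_cast ArithmeticFunction.abs_moebius_le_one
  refine step1.trans ?_
  -- step 2: one `q`
  have step2 : ∀ q ∈ Icc 1 A, ‖∑ d ∈ (Icc 1 X).filter (fun d => q ^ 2 ∣ d ∧ d % 8 = c),
        ee (θ * d) * (EBN e a β B N d (1 / (8 * (d : ℝ))) : ℂ)‖ ≤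
      Real.sqrt B * ∫ w in Set.Ioi z0, 2 * ∑ s ∈ Icc 2 M, ∑ g ∈ Icc 1 M, ∑ v ∈ Icc 1 M,
        (C0 * S * (1 / Real.sqrt s) * Psi s (((X * B ^ 2 : ℕ) : ℝ) / (8 * (Nat.lcm (q ^ 2) g : ℕ)) + 1)
          (8 * (Nat.lcm (q ^ 2) g : ℕ) * θ)) *
        (w ^ (-(3 / 4) : ℝ) * kap (((s * (g * v) ^ 2 : ℕ) : ℝ) ^ 2 * w)) := by
    intro q hq
    rw [mem_Icc] at hq
    set Da := (Icc 1 X).filter (fun d => q ^ 2 ∣ d ∧ d % 8 = c) with hDa
    set f : ℕ → ℝ → ℝ := fun d w => w ^ (-(3 / 4) : ℝ) * N1 e (KB a β B N w) M d with hf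
    have hzd : ∀ d ∈ Da, 0 < 1 / (8 * (d : ℝ)) ∧ z0 ≤ 1 / (8 * (d : ℝ)) / (B : ℝ) ^ 2 := by
      intro d hd
      rw [hDa, mem_filter, mem_Icc] at hd
      have hd0 : (0 : ℝ) < d := by exact_mod_cast hd.1.1
      have hdX : (d : ℝ) ≤ X := by exact_mod_cast hd.1.2
      refine ⟨by positivity, ?_⟩
      rw [hz0]
      exact div_le_div_of_nonneg_right (one_div_le_one_div_of_le (by positivity) (by linarith))
        (by positivity)
    have hint : ∀ d ∈ Da, Integrable ((Set.Ioi (1 / (8 * (d : ℝ)) / (B : ℝ) ^ 2)).indicator (f d)) := by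
      intro d hd
      rw [integrable_indicator_iff measurableSet_Ioi]
      exact (kra a ha01 e β B N d _ hB (hzd d hd).1).1
    have e1 : ∀ d ∈ Da, (EBN e a β B N d (1 / (8 * (d : ℝ))) : ℂ) = (Real.sqrt B : ℂ) * ∫ w in Set.Ioi z0,
        (((Set.Ioi (1 / (8 * (d : ℝ)) / (B : ℝ) ^ 2)).indicator (f d) w : ℝ) : ℂ) := by
      intro d hd
      have h1 : ∫ w in Set.Ioi z0, (((Set.Ioi (1 / (8 * (d : ℝ)) / (B : ℝ) ^ 2)).indicator (f d) w : ℝ) : ℂ) =
          ((∫ w in Set.Ioi z0, (Set.Ioi (1 / (8 * (d : ℝ)) / (B : ℝ) ^ 2)).indicator (f d) w : ℝ) : ℂ) :=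
        integral_ofReal
      rw [h1, (kra a ha01 e β B N d _ hB (hzd d hd).1).2, setIntegral_indicator measurableSet_Ioi,
        Set.Ioi_inter_Ioi, sup_eq_right.2 (hzd d hd).2]
      push_cast
      rfl
    have e2 : ∑ d ∈ Da, ee (θ * d) * (EBN e a β B N d (1 / (8 * (d : ℝ))) : ℂ) =
        (Real.sqrt B : ℂ) * ∫ w in Set.Ioi z0,
        ∑ d ∈ Da, ee (θ * d) * (((Set.Ioi (1 / (8 * (d : ℝ)) / (B : ℝ) ^ 2)).indicator (f d) w : ℝ) : ℂ) := by
      rw [integral_finsetSum, Finset.mul_sum]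
      · apply sum_congr rfl
        intro d hd
        rw [integral_const_mul, e1 d hd]
        ring
      · intro d hd
        exact ((hint d hd).ofReal.const_mul _).integrableOn
    rw [e2, norm_mul, Complex.norm_real, Real.norm_eq_abs, abs_of_nonneg (Real.sqrt_nonneg _)]
    apply mul_le_mul_of_nonneg_left _ (Real.sqrt_nonneg _)
    apply norm_integral_le_of_norm_le
    · apply Integrable.const_mul
      apply integrable_finsetSum
      intro s hs0
      apply integrable_finsetSum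
      intro g hg
      apply integrable_finsetSum
      intro v hv
      apply Integrable.const_mul
      have hs : 1 ≤ s * (g * v) ^ 2 := by
        have h1 : 0 < s := by
          have := (mem_Icc.1 hs0).1
          omega
        have h2 : 0 < g := (mem_Icc.1 hg).1
        have h3 : 0 < v := (mem_Icc.1 hv).1
        have : 0 < s * (g * v) ^ 2 := by positivity
        exact this
      exact (kin (s * (g * v) ^ 2) z0 hs hz0p).1
    · rw [ae_restrict_iff' measurableSet_Ioi]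
      refine Eventually.of_forall fun w hw => ?_
      rw [Set.mem_Ioi] at hw
      have hw0 : 0 < w := lt_trans hz0p hw
      have hwB : 0 < w * (B : ℝ) ^ 2 := by positivity
      set D0 : ℕ := ⌊1 / (8 * (w * (B : ℝ) ^ 2))⌋₊ with hD0
      have e3 : ∑ d ∈ Da, ee (θ * d) *
          (((Set.Ioi (1 / (8 * (d : ℝ)) / (B : ℝ) ^ 2)).indicator (f d) w : ℝ) : ℂ) =
          ((w ^ (-(3 / 4) : ℝ) : ℝ) : ℂ) * ∑ d ∈ (Ioc D0 X).filter (fun d => q ^ 2 ∣ d ∧ d % 8 = c),
            ee (θ * d) * (NA e (fun n => if IsSquare n then 0 else KB a β B N w n) M d : ℂ) := by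
        have hset : (Ioc D0 X).filter (fun d => q ^ 2 ∣ d ∧ d % 8 = c) =
            Da.filter (fun d : ℕ => 1 / (8 * (d : ℝ)) / (B : ℝ) ^ 2 < w) := by
          ext d
          simp only [hDa, mem_filter, mem_Ioc, mem_Icc]
          have hiff : ∀ hd : 1 ≤ d, (D0 < d ↔ 1 / (8 * (d : ℝ)) / (B : ℝ) ^ 2 < w) := by
            intro hd
            have hd0 : (0 : ℝ) < d := by exact_mod_cast hd
            rw [hD0, Nat.floor_lt (by positivity), div_lt_iff₀ (by positivity),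
              div_lt_iff₀ (by positivity), div_lt_iff₀ (by positivity)]
            constructor <;> intro h <;> nlinarith
          constructor
          · rintro ⟨⟨h1, h2⟩, h3⟩
            exact ⟨⟨⟨by omega, h2⟩, h3⟩, (hiff (by omega)).1 h1⟩
          · rintro ⟨⟨⟨h1, h2⟩, h3⟩, h4⟩
            exact ⟨⟨(hiff h1).2 h4, h2⟩, h3⟩
        rw [hset, Finset.sum_filter (s := Da), Finset.mul_sum]
        apply sum_congr rfl
        intro d _
        by_cases h : 1 / (8 * (d : ℝ)) / (B : ℝ) ^ 2 < w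
        · rw [if_pos h, Set.indicator_of_mem (Set.mem_Ioi.2 h)]
          simp only [hf]
          rw [N1_eq_NA]
          push_cast
          ring
        · rw [if_neg h, Set.indicator_of_notMem (fun hh => h (Set.mem_Ioi.1 hh))]
          simp
      rw [e3, norm_mul, Complex.norm_real, Real.norm_eq_abs, abs_of_nonneg (Real.rpow_nonneg hw0.le _)]
      have h1 := ptw e he (fun n => if IsSquare n then 0 else KB a β B N w n)
        (fun n => if IsSquare n then 0 else C0 * S * kap ((n : ℝ) ^ 2 * w))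
        (fun n hn => by
          by_cases h : IsSquare n
          · simp [h]
          · simp only [h, if_false]
            exact k0 a ha01 β hβ B N hB n w hn hw0)
        (fun n => by
          by_cases h : IsSquare n
          · simp [h]
          · simp only [h, if_false]
            exact mul_nonneg (mul_nonneg hC00.le hS0) (kap_nonneg (by positivity)))
        c q D0 X M θ hc8 hco hq.1
      refine (mul_le_mul_of_nonneg_left h1 (Real.rpow_nonneg hw0.le _)).trans ?_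
      rw [mul_left_comm]
      apply mul_le_mul_of_nonneg_left _ (by norm_num)
      rw [Finset.mul_sum]
      have hsub : Icc 2 M ⊆ Icc 1 M := Icc_subset_Icc_left (by norm_num)
      rw [← Finset.sum_subset hsub]
      · apply sum_le_sum
        intro s _
        rw [Finset.mul_sum]
        apply sum_le_sum
        intro g _
        rw [Finset.mul_sum]
        apply sum_le_sum
        intro v _
        have hk : 0 ≤ kap (((s * (g * v) ^ 2 : ℕ) : ℝ) ^ 2 * w) := kap_nonneg (by positivity)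
        have hif : (if IsSquare (s * (g * v) ^ 2) then (0 : ℝ) else
            C0 * S * kap (((s * (g * v) ^ 2 : ℕ) : ℝ) ^ 2 * w)) ≤
            C0 * S * kap (((s * (g * v) ^ 2 : ℕ) : ℝ) ^ 2 * w) := by
          split_ifs
          · positivity
          · exact le_refl _
        have hw3 : 0 ≤ w ^ (-(3 / 4) : ℝ) := Real.rpow_nonneg hw0.le _
        have hP0 : 0 ≤ Psi s ((X : ℝ) / (8 * (Nat.lcm (q ^ 2) g : ℕ)) + 1)
          (8 * (Nat.lcm (q ^ 2) g : ℕ) * θ) := Psi_nonneg s (hL _) _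
        have hPm := hPL s (Nat.lcm (q ^ 2) g) (8 * (Nat.lcm (q ^ 2) g : ℕ) * θ)
        have hsq0 : 0 ≤ 1 / Real.sqrt s := by positivity
        calc w ^ (-(3 / 4) : ℝ) * ((if IsSquare (s * (g * v) ^ 2) then (0 : ℝ) else
            C0 * S * kap (((s * (g * v) ^ 2 : ℕ) : ℝ) ^ 2 * w)) * (1 / Real.sqrt s) *
              Psi s ((X : ℝ) / (8 * (Nat.lcm (q ^ 2) g : ℕ)) + 1) (8 * (Nat.lcm (q ^ 2) g : ℕ) * θ))
            ≤ w ^ (-(3 / 4) : ℝ) * ((C0 * S * kap (((s * (g * v) ^ 2 : ℕ) : ℝ) ^ 2 * w)) * (1 / Real.sqrt s) *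
              Psi s (((X * B ^ 2 : ℕ) : ℝ) / (8 * (Nat.lcm (q ^ 2) g : ℕ)) + 1)
                (8 * (Nat.lcm (q ^ 2) g : ℕ) * θ)) := by
              apply mul_le_mul_of_nonneg_left _ hw3
              apply mul_le_mul (mul_le_mul_of_nonneg_right hif hsq0) hPm hP0 (by positivity)
          _ = _ := by ring
      · intro s hs hs'
        have hs1 : s = 1 := by
          rw [mem_Icc] at hs
          by_contra hne
          exact hs' (mem_Icc.2 ⟨by omega, hs.2⟩)
        subst hs1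
        apply mul_eq_zero_of_right
        apply sum_eq_zero
        intro g _
        apply sum_eq_zero
        intro v _
        have : IsSquare (1 * (g * v) ^ 2) := ⟨g * v, by ring⟩
        rw [if_pos this]
        simp
  clear_value S
  refine (sum_le_sum step2).trans ?_
  rw [Finset.mul_sum]
  apply sum_le_sum
  intro q hq
  -- step 3: the integral
  have hI : ∀ s ∈ Icc 2 M, ∀ g ∈ Icc 1 M, ∀ v ∈ Icc 1 M,
      1 ≤ s * (g * v) ^ 2 := by
    intro s hs g hg v hv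
    rw [mem_Icc] at hs hg hv
    have : 0 < s * (g * v) ^ 2 := by
      have h1 : 0 < s := by omega
      have h2 : 0 < g := hg.1
      have h3 : 0 < v := hv.1
      positivity
    exact this
  rw [integral_const_mul, integral_finsetSum]
  swap
  · intro s hs
    apply integrable_finsetSum
    intro g hg
    apply integrable_finsetSum
    intro v hv
    exact ((kin _ z0 (hI s hs g hg v hv) hz0p).1).const_mul _
  have e4 : ∀ s ∈ Icc 2 M, ∫ w in Set.Ioi z0, ∑ g ∈ Icc 1 M, ∑ v ∈ Icc 1 M,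
        (C0 * S * (1 / Real.sqrt s) * Psi s (((X * B ^ 2 : ℕ) : ℝ) / (8 * (Nat.lcm (q ^ 2) g : ℕ)) + 1)
          (8 * (Nat.lcm (q ^ 2) g : ℕ) * θ)) *
        (w ^ (-(3 / 4) : ℝ) * kap (((s * (g * v) ^ 2 : ℕ) : ℝ) ^ 2 * w)) ≤
      ∑ g ∈ Icc 1 M, ∑ v ∈ Icc 1 M, C0 * S * C1 * (1 / (g : ℝ) * (1 / (s : ℝ) *
        Real.exp (-((s : ℝ) ^ 2 * (g : ℝ) ^ 4 / (32 * (X * B ^ 2 : ℕ)))) *
        Psi s (((X * B ^ 2 : ℕ) : ℝ) / (8 * (Nat.lcm (q ^ 2) g : ℕ)) + 1)
          (8 * (Nat.lcm (q ^ 2) g : ℕ) * θ))) *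
          (1 / (v : ℝ) * Real.exp (-((v : ℝ) ^ 4 / (32 * (X * B ^ 2 : ℕ))))) := by
    intro s hs
    rw [integral_finsetSum]
    swap
    · intro g hg
      apply integrable_finsetSum
      intro v hv
      exact ((kin _ z0 (hI s hs g hg v hv) hz0p).1).const_mul _
    apply sum_le_sum
    intro g hg
    rw [integral_finsetSum]
    swap
    · intro v hv
      exact ((kin _ z0 (hI s hs g hg v hv) hz0p).1).const_mul _
    apply sum_le_sum
    intro v hv
    rw [integral_const_mul]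
    have h1 := (kin _ z0 (hI s hs g hg v hv) hz0p).2
    have hs1 : 1 ≤ s := by
      have := (mem_Icc.1 hs).1
      omega
    have hg1 := (mem_Icc.1 hg).1
    have hv1 := (mem_Icc.1 hv).1
    have hs0 : (0 : ℝ) < s := by exact_mod_cast hs1
    have hg0 : (0 : ℝ) < g := by exact_mod_cast hg1
    have hv0 : (0 : ℝ) < v := by exact_mod_cast hv1
    have h2 := exp_split (r := 8) hs1 hg1 hv1 (by norm_num) (le_refl 8) hXB
    rw [← hz0'] at h2
    have hsq : Real.sqrt ((s * (g * v) ^ 2 : ℕ) : ℝ) = Real.sqrt s * (g * v) := by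
      push_cast
      rw [Real.sqrt_mul hs0.le, Real.sqrt_sq (by positivity)]
    rw [hsq] at h1
    set Pp := Psi s (((X * B ^ 2 : ℕ) : ℝ) / (8 * (Nat.lcm (q ^ 2) g : ℕ)) + 1)
          (8 * (Nat.lcm (q ^ 2) g : ℕ) * θ) with hPp
    have hPp0 : 0 ≤ Pp := Psi_nonneg s (hL2 _) _
    have hss : Real.sqrt s * Real.sqrt s = s := Real.mul_self_sqrt hs0.le
    have hsp : 0 < Real.sqrt s := Real.sqrt_pos.2 hs0
    set E1 := Real.exp (-((s : ℝ) ^ 2 * (g : ℝ) ^ 4 / (32 * (X * B ^ 2 : ℕ)))) with hE1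
    set E2 := Real.exp (-((v : ℝ) ^ 4 / (32 * (X * B ^ 2 : ℕ)))) with hE2
    calc C0 * S * (1 / Real.sqrt s) * Pp * ∫ w in Set.Ioi z0, w ^ (-(3 / 4) : ℝ) *
          kap (((s * (g * v) ^ 2 : ℕ) : ℝ) ^ 2 * w)
        ≤ C0 * S * (1 / Real.sqrt s) * Pp * (C1 / (Real.sqrt s * (g * v)) * (E1 * E2)) := by
          apply mul_le_mul_of_nonneg_left _ (by positivity)
          refine h1.trans ?_
          apply mul_le_mul_of_nonneg_left h2 (by positivity)
      _ = C0 * S * C1 * (1 / (g : ℝ) * (1 / (Real.sqrt s * Real.sqrt s) * E1 * Pp)) *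
          (1 / (v : ℝ) * E2) := by
          field_simp
      _ = _ := by rw [hss]
  have hlast : ∑ s ∈ Icc 2 M, ∑ g ∈ Icc 1 M, ∑ v ∈ Icc 1 M, C0 * S * C1 * (1 / (g : ℝ) * (1 / (s : ℝ) *
        Real.exp (-((s : ℝ) ^ 2 * (g : ℝ) ^ 4 / (32 * (X * B ^ 2 : ℕ)))) *
        Psi s (((X * B ^ 2 : ℕ) : ℝ) / (8 * (Nat.lcm (q ^ 2) g : ℕ)) + 1)
          (8 * (Nat.lcm (q ^ 2) g : ℕ) * θ))) *
          (1 / (v : ℝ) * Real.exp (-((v : ℝ) ^ 4 / (32 * (X * B ^ 2 : ℕ))))) =
      C0 * S * C1 * (∑ g ∈ Icc 1 M, 1 / (g : ℝ) * TN (X * B ^ 2) θ (Nat.lcm (q ^ 2) g) g M) *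
        ∑ v ∈ Icc 1 M, (1 / (v : ℝ) * Real.exp (-((v : ℝ) ^ 4 / (32 * (X * B ^ 2 : ℕ))))) := by
    simp_rw [← Finset.mul_sum, ← Finset.sum_mul, ← Finset.mul_sum]
    congr 2
    rw [Finset.sum_comm]
    apply sum_congr rfl
    intro g _
    rw [← Finset.mul_sum]
    rfl
  have hTT : 0 ≤ ∑ g ∈ Icc 1 M, 1 / (g : ℝ) * TN (X * B ^ 2) θ (Nat.lcm (q ^ 2) g) g M := by
    apply sum_nonneg
    intro g _
    apply mul_nonneg (by positivity)
    apply sum_nonneg
    intro s _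
    exact mul_nonneg (by positivity) (Psi_nonneg s (hL2 _) _)
  have hlg : 0 ≤ lg (X * B ^ 2) := by
    unfold lg
    have : 0 ≤ Real.log ((X * B ^ 2 : ℕ) : ℝ) := Real.log_natCast_nonneg _
    linarith
  have hsB : Real.sqrt B ≤ B := by
    rw [Real.sqrt_le_left hB0.le]
    nlinarith
  set T := ∑ g ∈ Icc 1 M, 1 / (g : ℝ) * TN (X * B ^ 2) θ (Nat.lcm (q ^ 2) g) g M with hT
  calc Real.sqrt B * (2 * ∑ s ∈ Icc 2 M, ∫ w in Set.Ioi z0, ∑ g ∈ Icc 1 M, ∑ v ∈ Icc 1 M,
        (C0 * S * (1 / Real.sqrt s) * Psi s (((X * B ^ 2 : ℕ) : ℝ) / (8 * (Nat.lcm (q ^ 2) g : ℕ)) + 1)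
          (8 * (Nat.lcm (q ^ 2) g : ℕ) * θ)) *
        (w ^ (-(3 / 4) : ℝ) * kap (((s * (g * v) ^ 2 : ℕ) : ℝ) ^ 2 * w)))
      ≤ Real.sqrt B * (2 * (C0 * S * C1 * T *
        ∑ v ∈ Icc 1 M, (1 / (v : ℝ) * Real.exp (-((v : ℝ) ^ 4 / (32 * (X * B ^ 2 : ℕ))))))) := by
        rw [← hlast]
        exact mul_le_mul_of_nonneg_left
          (mul_le_mul_of_nonneg_left (sum_le_sum e4) (by norm_num)) (Real.sqrt_nonneg _)
    _ ≤ Real.sqrt B * (2 * (C0 * S * C1 * T * (C2 * lg (X * B ^ 2)))) := by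
        apply mul_le_mul_of_nonneg_left _ (Real.sqrt_nonneg _)
        apply mul_le_mul_of_nonneg_left _ (by norm_num)
        apply mul_le_mul_of_nonneg_left (vsm (X * B ^ 2) M hXB)
        positivity
    _ ≤ B * (2 * (C0 * S * C1 * T * (C2 * lg (X * B ^ 2)))) := by
        apply mul_le_mul_of_nonneg_right hsB
        positivity
    _ = _ := by ring

end

end Pool.Agent.H28.BR2
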