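import Pool.Agent.H28.BR.Stm2

set_option autoImplicit false

/-! Project BR2 (helper28), module SQW (writer: helper68): squarefree numbers with the weight. -/

namespace Pool.Agent.H28.BR2

open Finset Filter Topology MeasureTheory Pool.Agent.H306R2.RZ Pool.Agent.H306R2.RG
  Pool.Agent.Q122.FM Pool.Agent.Q122.MB Pool.Agent.H28.BR
open Pool.Agent.Helper112 (ee)
open Pool.Agent.H75.BR (tnt cT)

noncomputable section

namespace Sqw

/-- the number of members of a progression -/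
theorem cnt_cls (a b m c : ℕ) (hab : a ≤ b) (hm : Odd m) (hc : c < 8) :
    |(((Ioc a b).filter (fun d => m ∣ d ∧ d % 8 = c)).card : ℝ) - ((b : ℝ) - a) / (8 * m)| ≤ 1 := by
  have hm0 : 0 < m := hm.pos
  have hco : Nat.Coprime 8 m := by
    have h2 : Nat.Coprime 2 m := by
      rw [Nat.coprime_two_left]
      exact hm
    have := Nat.Coprime.pow_left 3 h2
    simpa using this
  obtain ⟨v, hv1, hv2⟩ := Nat.chineseRemainder hco c 0
  have hset : (Ioc a b).filter (fun d => m ∣ d ∧ d % 8 = c) =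
      (Ioc a b).filter (fun d => d ≡ v [MOD 8 * m]) := by
    apply filter_congr
    intro d _
    rw [← Nat.modEq_and_modEq_iff_modEq_mul hco]
    constructor
    · rintro ⟨h1, h2⟩
      refine ⟨?_, ?_⟩
      · refine Nat.ModEq.trans ?_ hv1.symm
        rw [Nat.ModEq, h2, Nat.mod_eq_of_lt hc]
      · refine Nat.ModEq.trans ?_ hv2.symm
        exact (Nat.modEq_zero_iff_dvd).2 h1
    · rintro ⟨h1, h2⟩
      refine ⟨(Nat.modEq_zero_iff_dvd).1 (h2.trans hv2), ?_⟩
      have := h1.trans hv1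
      rw [Nat.ModEq, Nat.mod_eq_of_lt hc] at this
      exact this
  rw [hset]
  have h8 : 0 < 8 * m := by positivity
  have hcard := Nat.Ioc_filter_modEq_card a b h8 v
  have hq : (0 : ℚ) < ((8 * m : ℕ) : ℚ) := by exact_mod_cast h8
  set x : ℚ := ((b : ℚ) - v) / ((8 * m : ℕ) : ℚ) with hx
  set y : ℚ := ((a : ℚ) - v) / ((8 * m : ℕ) : ℚ) with hy
  have hxy : x - y = ((b : ℚ) - a) / (8 * m) := by
    rw [hx, hy]
    push_cast
    field_simp
    ring
  have hyx : y ≤ x := by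
    rw [hx, hy]
    apply div_le_div_of_nonneg_right _ hq.le
    have : (a : ℚ) ≤ b := by exact_mod_cast hab
    linarith
  have hfl : ⌊y⌋ ≤ ⌊x⌋ := Int.floor_le_floor hyx
  rw [max_eq_left (by linarith)] at hcard
  have h1 := Int.floor_le x
  have h2 := Int.lt_floor_add_one x
  have h3 := Int.floor_le y
  have h4 := Int.lt_floor_add_one y
  have hcQ : ((((Ioc a b).filter (fun d => d ≡ v [MOD 8 * m])).card : ℕ) : ℚ) = (⌊x⌋ : ℚ) - ⌊y⌋ := by
    have := congrArg (fun z : ℤ => (z : ℚ)) hcard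
    push_cast at this
    exact this
  have h5 : |((((Ioc a b).filter (fun d => d ≡ v [MOD 8 * m])).card : ℕ) : ℚ) - ((b : ℚ) - a) / (8 * m)| ≤ 1 := by
    rw [hcQ, ← hxy, abs_le]
    constructor <;> linarith
  have h6 := (Rat.cast_le (K := ℝ)).2 h5
  push_cast at h6
  exact h6

/-- `∑ 1/q²` over the odd numbers `q ≥ 3` -/
theorem sum_odd_sq (N : ℕ) : ∑ q ∈ (Icc 3 N).filter (fun q => Odd q), 1 / (q : ℝ) ^ 2 ≤ 1 / 4 := by
  have key : ∀ J : ℕ, ∑ j ∈ Icc 1 J, 1 / (((2 * j + 1 : ℕ) : ℝ)) ^ 2 ≤ 1 / 4 * (1 - 1 / ((J : ℝ) + 1)) := by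
    intro J
    induction J with
    | zero => simp
    | succ J ih =>
      rw [Finset.sum_Icc_succ_top (by omega)]
      have h1 : 1 / (((2 * (J + 1) + 1 : ℕ) : ℝ)) ^ 2 ≤
          1 / 4 * (1 / ((J : ℝ) + 1) - 1 / ((J : ℝ) + 1 + 1)) := by
        have hJ : (0 : ℝ) ≤ J := by positivity
        have e : 1 / 4 * (1 / ((J : ℝ) + 1) - 1 / ((J : ℝ) + 1 + 1)) =
            1 / (4 * (((J : ℝ) + 1) * ((J : ℝ) + 1 + 1))) := by
          field_simp
          ring
        rw [e]
        apply one_div_le_one_div_of_le (by positivity)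
        push_cast
        nlinarith
      push_cast at h1 ih ⊢
      linarith
  have hsub : (Icc 3 N).filter (fun q => Odd q) ⊆ (Icc 1 N).image (fun j : ℕ => 2 * j + 1) := by
    intro q hq
    rw [mem_filter, mem_Icc] at hq
    obtain ⟨j, hj⟩ := hq.2
    rw [mem_image]
    exact ⟨j, by rw [mem_Icc]; omega, hj.symm⟩
  calc ∑ q ∈ (Icc 3 N).filter (fun q => Odd q), 1 / (q : ℝ) ^ 2
      ≤ ∑ q ∈ (Icc 1 N).image (fun j : ℕ => 2 * j + 1), 1 / ((q : ℕ) : ℝ) ^ 2 :=
        sum_le_sum_of_subset_of_nonneg hsub fun _ _ _ => by positivity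
    _ = ∑ j ∈ Icc 1 N, 1 / (((2 * j + 1 : ℕ) : ℝ)) ^ 2 := by
        rw [sum_image]
        intro x _ y _ h
        have h' : 2 * x + 1 = 2 * y + 1 := h
        omega
    _ ≤ 1 / 4 * (1 - 1 / ((N : ℝ) + 1)) := key N
    _ ≤ 1 / 4 := by
        have : 0 ≤ 1 / ((N : ℝ) + 1) := by positivity
        linarith

/-- the tail of `∑ 1/q²` -/
theorem sum_tail_sq (A N : ℕ) (hA : 1 ≤ A) : ∑ q ∈ Ioc A N, 1 / (q : ℝ) ^ 2 ≤ 1 / (A : ℝ) := by
  have hA0 : (0 : ℝ) < A := by exact_mod_cast hA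
  rcases le_or_gt A N with hAN | hAN
  · have key : ∀ n : ℕ, ∑ q ∈ Ioc A (A + n), 1 / (q : ℝ) ^ 2 ≤ 1 / (A : ℝ) - 1 / ((A + n : ℕ) : ℝ) := by
      intro n
      induction n with
      | zero => simp
      | succ n ih =>
        have e : Ioc A (A + (n + 1)) = insert (A + n + 1) (Ioc A (A + n)) := by
          ext z
          simp only [mem_Ioc, mem_insert]
          omega
        rw [e, sum_insert (by simp)]
        have h1 : 1 / (((A + n + 1 : ℕ) : ℝ)) ^ 2 ≤ 1 / ((A + n : ℕ) : ℝ) - 1 / ((A + (n + 1) : ℕ) : ℝ) := by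
          have hn : (0 : ℝ) ≤ n := by positivity
          push_cast
          have e2 : 1 / ((A : ℝ) + n) - 1 / ((A : ℝ) + (n + 1)) = 1 / (((A : ℝ) + n) * ((A : ℝ) + (n + 1))) := by
            field_simp
            ring
          rw [e2]
          apply one_div_le_one_div_of_le (by positivity)
          nlinarith
        linarith
    obtain ⟨n, rfl⟩ := Nat.exists_eq_add_of_le hAN
    have h1 := key n
    have h2 : 0 ≤ 1 / ((A + n : ℕ) : ℝ) := by positivity
    linarith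
  · rw [Ioc_eq_empty (by omega), sum_empty]
    positivity

/-- the sum over the divisors, small and large ones -/
theorem sum_Q {X A : ℕ} {M B : ℝ} (hA : 1 ≤ A) (hM : 0 ≤ M) (hB : 0 ≤ B) (h : ℕ → ℝ)
    (h1 : ∀ q ∈ (Icc 3 X).filter (fun q => Odd q), q ≤ A → h q ≤ M * (1 / (q : ℝ) ^ 2) + B)
    (h2 : ∀ q ∈ (Icc 3 X).filter (fun q => Odd q), h q ≤ X * (1 / (q : ℝ) ^ 2)) :
    ∑ q ∈ (Icc 3 X).filter (fun q => Odd q), h q ≤ M / 4 + A * B + X / A := by
  rw [← Finset.sum_filter_add_sum_filter_not _ (fun q => q ≤ A)]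
  have e1 : ∑ q ∈ ((Icc 3 X).filter (fun q => Odd q)).filter (fun q => q ≤ A), h q ≤ M / 4 + A * B := by
    calc ∑ q ∈ ((Icc 3 X).filter (fun q => Odd q)).filter (fun q => q ≤ A), h q
        ≤ ∑ q ∈ ((Icc 3 X).filter (fun q => Odd q)).filter (fun q => q ≤ A), (M * (1 / (q : ℝ) ^ 2) + B) := by
          apply sum_le_sum
          intro q hq
          exact h1 q (mem_filter.1 hq).1 (mem_filter.1 hq).2
      _ ≤ M * (1 / 4) + A * B := by
          rw [sum_add_distrib, ← Finset.mul_sum, sum_const, nsmul_eq_mul]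
          apply add_le_add
          · apply mul_le_mul_of_nonneg_left _ hM
            refine le_trans (sum_le_sum_of_subset_of_nonneg (filter_subset _ _) fun _ _ _ => by positivity)
              (sum_odd_sq X)
          · apply mul_le_mul_of_nonneg_right _ hB
            have hc : (((Icc 3 X).filter (fun q => Odd q)).filter (fun q => q ≤ A)).card ≤ (Icc 1 A).card := by
              apply card_le_card
              intro q hq
              simp only [mem_filter, mem_Icc] at hq ⊢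
              omega
            rw [Nat.card_Icc, Nat.add_sub_cancel] at hc
            exact_mod_cast hc
      _ = M / 4 + A * B := by ring
  have e2 : ∑ q ∈ ((Icc 3 X).filter (fun q => Odd q)).filter (fun q => ¬ q ≤ A), h q ≤ X / A := by
    calc ∑ q ∈ ((Icc 3 X).filter (fun q => Odd q)).filter (fun q => ¬ q ≤ A), h q
        ≤ ∑ q ∈ ((Icc 3 X).filter (fun q => Odd q)).filter (fun q => ¬ q ≤ A), X * (1 / (q : ℝ) ^ 2) := by
          apply sum_le_sum
          intro q hq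
          exact h2 q (mem_filter.1 hq).1
      _ ≤ ∑ q ∈ Ioc A X, X * (1 / (q : ℝ) ^ 2) := by
          apply sum_le_sum_of_subset_of_nonneg
          · intro q hq
            simp only [mem_filter, mem_Icc] at hq
            rw [mem_Ioc]
            omega
          · intro _ _ _
            positivity
      _ ≤ X * (1 / A) := by
          rw [← Finset.mul_sum]
          exact mul_le_mul_of_nonneg_left (sum_tail_sq A X hA) (by positivity)
      _ = X / A := by ring
  linarith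

/-- multiples -/
theorem card_mult (X m : ℕ) (p : ℕ → Prop) [DecidablePred p] :
    (((Ioc (X / 2) X).filter (fun d => m ∣ d ∧ p d)).card : ℝ) ≤ X / m := by
  have h1 : ((Ioc (X / 2) X).filter (fun d => m ∣ d ∧ p d)).card ≤ ((Ioc 0 X).filter (fun d => m ∣ d)).card := by
    apply card_le_card
    intro d hd
    simp only [mem_filter, mem_Ioc] at hd ⊢
    exact ⟨⟨by omega, hd.1.2⟩, hd.2.1⟩
  have h2 : ((Ioc 0 X).filter (fun d => m ∣ d)).card = X / m := by
    rw [Nat.Ioc_filter_dvd_card_eq_div]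
  rw [h2] at h1
  have h3 : ((X / m : ℕ) : ℝ) ≤ (X : ℝ) / m := Nat.cast_div_le
  exact le_trans (by exact_mod_cast h1) h3

/-- the error terms -/
theorem err_bound (τ X : ℕ) (hX : 1 ≤ X) (E : ℝ) (hE : 0 < E) {η : ℝ} (hη : η = 1 / (2 * ((τ : ℝ) + 1) ^ 2))
    {R : ℝ} (hR : R = (X : ℝ) ^ ((τ : ℝ) / (τ + 1))) {A : ℕ} (hA : A = ⌈(X : ℝ) ^ η⌉₊) :
    1 + E * R + (A * (1 + E * (A : ℝ) ^ (2 * τ) * R) + X / A) ≤
      (4 + 2 * E * 2 ^ (2 * τ + 1)) * (X : ℝ) ^ (1 - η) := by
  have hX1 : (1 : ℝ) ≤ X := by exact_mod_cast hX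
  have hX0 : (0 : ℝ) < X := by linarith
  have hτ : (0 : ℝ) ≤ τ := by positivity
  have hη0 : 0 < η := by rw [hη]; positivity
  have hη1 : η ≤ 1 / 2 := by
    rw [hη]
    apply one_div_le_one_div_of_le (by norm_num)
    nlinarith
  have hXη : 1 ≤ (X : ℝ) ^ η := Real.one_le_rpow hX1 hη0.le
  have hA1 : (X : ℝ) ^ η ≤ A := by
    rw [hA]
    exact Nat.le_ceil _
  have hA2 : (A : ℝ) ≤ 2 * (X : ℝ) ^ η := by
    rw [hA]
    have := Nat.ceil_lt_add_one (show (0 : ℝ) ≤ (X : ℝ) ^ η by positivity)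
    linarith
  have hA0 : (0 : ℝ) < A := by linarith
  have hAone : (1 : ℝ) ≤ A := by linarith
  have hR0 : 0 ≤ R := by rw [hR]; positivity
  have h1 : (X : ℝ) / A ≤ (X : ℝ) ^ (1 - η) := by
    rw [div_le_iff₀ hA0]
    calc (X : ℝ) = (X : ℝ) ^ (1 - η) * (X : ℝ) ^ η := by
          rw [← Real.rpow_add hX0]
          simp
      _ ≤ _ := mul_le_mul_of_nonneg_left hA1 (by positivity)
  have h2 : (A : ℝ) ≤ 2 * (X : ℝ) ^ (1 - η) := by
    refine hA2.trans (mul_le_mul_of_nonneg_left ?_ (by norm_num))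
    exact Real.rpow_le_rpow_of_exponent_le hX1 (by linarith)
  have h3 : 1 ≤ (X : ℝ) ^ (1 - η) := Real.one_le_rpow hX1 (by linarith)
  have h4 : (A : ℝ) ^ (2 * τ + 1) * R ≤ 2 ^ (2 * τ + 1) * (X : ℝ) ^ (1 - η) := by
    calc (A : ℝ) ^ (2 * τ + 1) * R ≤ (2 * (X : ℝ) ^ η) ^ (2 * τ + 1) * R :=
          mul_le_mul_of_nonneg_right (pow_le_pow_left₀ hA0.le hA2 _) hR0
      _ = 2 ^ (2 * τ + 1) * ((X : ℝ) ^ (η * ((2 * τ + 1 : ℕ) : ℝ)) * (X : ℝ) ^ ((τ : ℝ) / (τ + 1))) := by
          rw [mul_pow, hR, ← Real.rpow_natCast ((X : ℝ) ^ η), ← Real.rpow_mul hX0.le]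
          ring
      _ = 2 ^ (2 * τ + 1) * (X : ℝ) ^ (1 - η) := by
          rw [← Real.rpow_add hX0]
          congr 2
          rw [hη]
          push_cast
          field_simp
          ring
  have h5 : R ≤ (A : ℝ) ^ (2 * τ + 1) * R := by
    have := one_le_pow₀ hAone (n := 2 * τ + 1)
    nlinarith
  have h6 : (A : ℝ) * (1 + E * (A : ℝ) ^ (2 * τ) * R) = A + E * ((A : ℝ) ^ (2 * τ + 1) * R) := by ring
  rw [h6]
  have h7 : E * R ≤ E * (2 ^ (2 * τ + 1) * (X : ℝ) ^ (1 - η)) := mul_le_mul_of_nonneg_left (h5.trans h4) hE.le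
  have h8 : E * ((A : ℝ) ^ (2 * τ + 1) * R) ≤ E * (2 ^ (2 * τ + 1) * (X : ℝ) ^ (1 - η)) :=
    mul_le_mul_of_nonneg_left h4 hE.le
  nlinarith

theorem weight_ge (K d : ℕ) : Real.exp (-(K / 3 : ℝ)) * (1 + K / 3 - K * ∑ p ∈ d.primeFactors, 1 / (p : ℝ)) ≤
    (∏ p ∈ d.primeFactors, (1 + (K : ℝ) / p))⁻¹ := by
  set x : ℝ := ∑ p ∈ d.primeFactors, 1 / (p : ℝ) with hx
  have h1 : ∏ p ∈ d.primeFactors, (1 + (K : ℝ) / p) ≤ Real.exp (K * x) := by
    rw [hx, Finset.mul_sum, Real.exp_sum]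
    apply Finset.prod_le_prod
    · intro p _
      positivity
    · intro p _
      have := Real.add_one_le_exp ((K : ℝ) * (1 / (p : ℝ)))
      have e : (K : ℝ) / p = K * (1 / (p : ℝ)) := by ring
      rw [e]
      linarith
  have h0 : 0 < ∏ p ∈ d.primeFactors, (1 + (K : ℝ) / p) := prod_pos fun p _ => by positivity
  have h2 : (Real.exp (K * x))⁻¹ ≤ (∏ p ∈ d.primeFactors, (1 + (K : ℝ) / p))⁻¹ :=
    inv_anti₀ h0 h1
  refine le_trans ?_ h2
  rw [← Real.exp_neg]
  have h3 : Real.exp (-(K * x)) = Real.exp (-(K / 3 : ℝ)) * Real.exp (K / 3 - K * x) := by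
    rw [← Real.exp_add]
    congr 1
    ring
  rw [h3]
  apply mul_le_mul_of_nonneg_left _ (Real.exp_pos _).le
  have := Real.add_one_le_exp ((K : ℝ) / 3 - K * x)
  linarith

end Sqw

open Sqw in
theorem t_SQW0 (prg : S_PRG) : S_SQW := by
  intro K
  refine ⟨Real.exp (-(K / 3 : ℝ)) * (3 / 64), by positivity, ?_⟩
  intro α c τ hNL
  obtain ⟨E, hE, prg⟩ := prg α c τ hNL
  set η : ℝ := 1 / (2 * ((τ : ℝ) + 1) ^ 2) with hη
  have hτ0 : (0 : ℝ) ≤ τ := by positivity
  have hη0 : 0 < η := by rw [hη]; positivity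
  have hη1 : η ≤ 1 := by
    rw [hη, div_le_one (by positivity)]
    nlinarith
  refine ⟨(1 + 4 * K / 3) * (4 + 2 * E * 2 ^ (2 * τ + 1)), η, by positivity, hη0, hη1, ?_⟩
  intro c' hc8 hco X hX Δ γ hΔ hΔ2
  have hX1 : (1 : ℝ) ≤ X := by exact_mod_cast hX
  have hX0 : (0 : ℝ) < X := by linarith
  set f : ℕ → ℝ := fun d => tnt Δ (8 * α * d + γ) with hf
  have hf0 : ∀ d, 0 ≤ f d := fun d => Pool.Agent.H75.BR.tnt_nonneg hΔ hΔ2 _
  have hf1 : ∀ d, f d ≤ 1 := fun d => Pool.Agent.H75.BR.tnt_le hΔ hΔ2 _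
  set R : ℝ := (X : ℝ) ^ ((τ : ℝ) / (τ + 1)) with hR
  have hR0 : 0 ≤ R := by rw [hR]; positivity
  set A : ℕ := ⌈(X : ℝ) ^ η⌉₊ with hA
  have hA1 : 1 ≤ A := by
    rw [hA, Nat.one_le_ceil_iff]
    positivity
  set X' : ℝ := (X : ℝ) - ((X / 2 : ℕ) : ℝ) with hX'
  have hX2 : (X : ℝ) / 2 ≤ X' := by
    have : ((X / 2 : ℕ) : ℝ) ≤ (X : ℝ) / 2 := by
      have := Nat.cast_div_le (α := ℝ) (m := X) (n := 2)
      simpa using this
    rw [hX']
    linarith
  have hX'0 : 0 ≤ X' := by linarith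
  have hΔsq : Δ ^ 2 ≤ 1 := by nlinarith
  have hΔ0 : 0 ≤ Δ ^ 2 := sq_nonneg _
  set M : ℝ := Δ ^ 2 * (X' / 8) with hM
  have hM0 : 0 ≤ M := by rw [hM]; positivity
  set D : ℕ → Finset ℕ := fun m => (Ioc (X / 2) X).filter (fun d => m ∣ d ∧ d % 8 = c') with hD
  have hDsum : ∀ m, Odd m → |∑ d ∈ D m, f d - Δ ^ 2 * ((D m).card : ℝ)| ≤ E * (m : ℝ) ^ τ * R := by
    intro m hm
    have h1 := prg c' hc8 hco m (X / 2) X hm hX Δ γ hΔ hΔ2
    rw [sum_sub_distrib, sum_const, nsmul_eq_mul] at h1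
    rw [mul_comm (Δ ^ 2)]
    exact h1
  have hcard : ∀ m, Odd m → |((D m).card : ℝ) - X' / (8 * m)| ≤ 1 := fun m hm =>
    cnt_cls (X / 2) X m c' (Nat.div_le_self _ _) hm hc8
  have hup : ∀ m, Odd m → ∑ d ∈ D m, f d ≤ M * (1 / (m : ℝ)) + (1 + E * (m : ℝ) ^ τ * R) := by
    intro m hm
    have h1 := (abs_le.1 (hDsum m hm)).2
    have h2 := (abs_le.1 (hcard m hm)).2
    have h3 : Δ ^ 2 * ((D m).card : ℝ) ≤ Δ ^ 2 * (X' / (8 * m) + 1) :=
      mul_le_mul_of_nonneg_left (by linarith) hΔ0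
    have h4 : Δ ^ 2 * (X' / (8 * m) + 1) = M * (1 / (m : ℝ)) + Δ ^ 2 := by
      rw [hM]
      ring
    linarith
  have hlo : M - (1 + E * R) ≤ ∑ d ∈ D 1, f d := by
    have h1 := (abs_le.1 (hDsum 1 odd_one)).1
    have h2 := (abs_le.1 (hcard 1 odd_one)).1
    have h3 : Δ ^ 2 * (X' / (8 * (1 : ℕ)) - 1) ≤ Δ ^ 2 * ((D 1).card : ℝ) :=
      mul_le_mul_of_nonneg_left (by linarith) hΔ0
    have h4 : Δ ^ 2 * (X' / (8 * (1 : ℕ)) - 1) = M - Δ ^ 2 := by
      rw [hM]
      push_cast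
      ring
    rw [Nat.cast_one, one_pow, mul_one] at h1
    linarith
  set B : ℝ := 1 + E * (A : ℝ) ^ (2 * τ) * R with hB
  have hB0 : 0 ≤ B := by rw [hB]; positivity
  set Q := (Icc 3 X).filter (fun q => Odd q) with hQ
  set Sq := (Ioc (X / 2) X).filter (fun d => d % 8 = c' ∧ Squarefree d) with hSq
  have hodd : ∀ d, d % 8 = c' → Odd d := by
    intro d hd
    rw [Nat.odd_iff] at hco ⊢
    omega
  have hSqD : Sq = (D 1).filter (fun d => Squarefree d) := by
    rw [hSq, hD]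
    ext d
    simp only [mem_filter, one_dvd, true_and]
    tauto
  -- the numbers which are not squarefree
  have hns : ∑ d ∈ (D 1).filter (fun d => ¬ Squarefree d), f d ≤ M / 4 + A * B + X / A := by
    have hswap : ∑ q ∈ Q, ∑ d ∈ D (q ^ 2), f d =
        ∑ d ∈ D 1, ∑ q ∈ Q, if q ^ 2 ∣ d then f d else 0 := by
      rw [Finset.sum_comm]
      apply sum_congr rfl
      intro q _
      rw [← Finset.sum_filter]
      apply sum_congr _ (fun _ _ => rfl)
      rw [hD]
      ext d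
      simp only [mem_filter, one_dvd, true_and]
      tauto
    have h1 : ∑ d ∈ (D 1).filter (fun d => ¬ Squarefree d), f d ≤ ∑ q ∈ Q, ∑ d ∈ D (q ^ 2), f d := by
      rw [hswap, Finset.sum_filter]
      apply sum_le_sum
      intro d hd
      have hnn : 0 ≤ ∑ q ∈ Q, if q ^ 2 ∣ d then f d else 0 := by
        apply sum_nonneg
        intro q _
        split_ifs
        · exact hf0 d
        · exact le_refl _
      by_cases hsf : ¬ Squarefree d
      · rw [if_pos hsf]
        rw [hD, mem_filter, mem_Ioc] at hd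
        rw [Nat.squarefree_iff_prime_squarefree] at hsf
        push Not at hsf
        obtain ⟨p, hp, hpd⟩ := hsf
        have hdo : Odd d := hodd d hd.2.2
        have hpo : Odd p := by
          rcases hp.eq_two_or_odd' with h | h
          · exfalso
            subst h
            rw [Nat.odd_iff] at hdo
            have : 2 ∣ d := Dvd.dvd.trans (by norm_num) hpd
            omega
          · exact h
        have hp3 : 3 ≤ p := by
          have := hp.two_le
          rw [Nat.odd_iff] at hpo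
          omega
        have hd0 : 0 < d := by omega
        have hpX : p ≤ X := by
          have h2 : p * p ≤ d := Nat.le_of_dvd hd0 hpd
          nlinarith [hd.1.2]
        have hpQ : p ∈ Q := by
          rw [hQ, mem_filter, mem_Icc]
          exact ⟨⟨hp3, hpX⟩, hpo⟩
        calc f d = if p ^ 2 ∣ d then f d else 0 := by rw [if_pos (by rw [sq]; exact hpd)]
          _ ≤ ∑ q ∈ Q, if q ^ 2 ∣ d then f d else 0 :=
              single_le_sum (f := fun q => if q ^ 2 ∣ d then f d else 0) (fun q _ => by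
                show 0 ≤ if q ^ 2 ∣ d then f d else 0
                split_ifs
                · exact hf0 d
                · exact le_refl _) hpQ
      · rw [if_neg hsf]
        exact hnn
    refine h1.trans (sum_Q hA1 hM0 hB0 _ ?_ ?_)
    · intro q hq hqA
      rw [mem_filter, mem_Icc] at hq
      have h2 := hup (q ^ 2) (hq.2.pow)
      have hq1 : (q : ℝ) ≤ A := by exact_mod_cast hqA
      have h3 : ((q ^ 2 : ℕ) : ℝ) ^ τ ≤ (A : ℝ) ^ (2 * τ) := by
        push_cast
        rw [← pow_mul]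
        exact pow_le_pow_left₀ (by positivity) hq1 _
      have h4 : E * ((q ^ 2 : ℕ) : ℝ) ^ τ * R ≤ E * (A : ℝ) ^ (2 * τ) * R :=
        mul_le_mul_of_nonneg_right (mul_le_mul_of_nonneg_left h3 hE.le) hR0
      have e : (((q ^ 2 : ℕ)) : ℝ) = (q : ℝ) ^ 2 := by push_cast; ring
      rw [e] at h2 h4
      rw [hB]
      linarith
    · intro q hq
      calc ∑ d ∈ D (q ^ 2), f d ≤ ∑ d ∈ D (q ^ 2), (1 : ℝ) := sum_le_sum fun d _ => hf1 d
        _ = ((D (q ^ 2)).card : ℝ) := by simp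
        _ ≤ X / ((q ^ 2 : ℕ) : ℝ) := card_mult X (q ^ 2) _
        _ = X * (1 / (q : ℝ) ^ 2) := by
            push_cast
            ring
  have hS0 : M - (1 + E * R) - (M / 4 + A * B + X / A) ≤ ∑ d ∈ Sq, f d := by
    have h1 := Finset.sum_filter_add_sum_filter_not (D 1) (fun d => Squarefree d) f
    rw [hSqD]
    linarith
  -- the prime divisors
  have hT : ∑ d ∈ Sq, f d * ∑ p ∈ d.primeFactors, 1 / (p : ℝ) ≤ M / 4 + A * B + X / A := by
    have hswap : ∑ q ∈ Q, 1 / (q : ℝ) * ∑ d ∈ D q, f d =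
        ∑ d ∈ D 1, ∑ q ∈ Q, if q ∣ d then f d * (1 / (q : ℝ)) else 0 := by
      rw [Finset.sum_comm]
      apply sum_congr rfl
      intro q _
      rw [← Finset.sum_filter, Finset.mul_sum]
      apply sum_congr _ (fun _ _ => by ring)
      rw [hD]
      ext d
      simp only [mem_filter, one_dvd, true_and]
      tauto
    have h1 : ∑ d ∈ Sq, f d * ∑ p ∈ d.primeFactors, 1 / (p : ℝ) ≤
        ∑ q ∈ Q, 1 / (q : ℝ) * ∑ d ∈ D q, f d := by
      rw [hswap]
      calc ∑ d ∈ Sq, f d * ∑ p ∈ d.primeFactors, 1 / (p : ℝ)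
          ≤ ∑ d ∈ D 1, f d * ∑ p ∈ d.primeFactors, 1 / (p : ℝ) := by
            rw [hSqD]
            apply sum_le_sum_of_subset_of_nonneg (filter_subset _ _)
            intro d _ _
            exact mul_nonneg (hf0 d) (sum_nonneg fun p _ => by positivity)
        _ ≤ _ := by
            apply sum_le_sum
            intro d hd
            rw [hD, mem_filter, mem_Ioc] at hd
            have hdo : Odd d := hodd d hd.2.2
            rw [Finset.mul_sum, ← Finset.sum_filter]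
            apply sum_le_sum_of_subset_of_nonneg
            · intro p hp
              have hpp := Nat.prime_of_mem_primeFactors hp
              have hpd := Nat.dvd_of_mem_primeFactors hp
              have hpo : Odd p := by
                rcases hpp.eq_two_or_odd' with h | h
                · exfalso
                  subst h
                  rw [Nat.odd_iff] at hdo
                  omega
                · exact h
              have hp3 : 3 ≤ p := by
                have := hpp.two_le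
                rw [Nat.odd_iff] at hpo
                omega
              have hpX : p ≤ X := (Nat.le_of_dvd (by omega) hpd).trans hd.1.2
              rw [mem_filter, hQ, mem_filter, mem_Icc]
              exact ⟨⟨⟨hp3, hpX⟩, hpo⟩, hpd⟩
            · intro q _ _
              exact mul_nonneg (hf0 d) (by positivity)
    refine h1.trans (sum_Q hA1 hM0 hB0 _ ?_ ?_)
    · intro q hq hqA
      rw [mem_filter, mem_Icc] at hq
      have h2 := hup q hq.2
      have hq0 : (1 : ℝ) ≤ q := by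
        have : 1 ≤ q := by omega
        exact_mod_cast this
      have hq1 : (q : ℝ) ≤ A := by exact_mod_cast hqA
      have hAR : (1 : ℝ) ≤ A := by exact_mod_cast hA1
      have h3 : (q : ℝ) ^ τ ≤ (A : ℝ) ^ (2 * τ) :=
        (pow_le_pow_left₀ (by positivity) hq1 _).trans (pow_le_pow_right₀ hAR (by omega))
      have h4 : E * (q : ℝ) ^ τ * R ≤ E * (A : ℝ) ^ (2 * τ) * R :=
        mul_le_mul_of_nonneg_right (mul_le_mul_of_nonneg_left h3 hE.le) hR0
      have h5 : ∑ d ∈ D q, f d ≤ M * (1 / (q : ℝ)) + B := by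
        rw [hB]
        linarith
      have hq1' : 1 / (q : ℝ) ≤ 1 := by
        rw [div_le_one (by linarith)]
        exact hq0
      calc 1 / (q : ℝ) * ∑ d ∈ D q, f d ≤ 1 / (q : ℝ) * (M * (1 / (q : ℝ)) + B) :=
            mul_le_mul_of_nonneg_left h5 (by positivity)
        _ = M * (1 / (q : ℝ) ^ 2) + 1 / (q : ℝ) * B := by ring
        _ ≤ M * (1 / (q : ℝ) ^ 2) + 1 * B := by
            have := mul_le_mul_of_nonneg_right hq1' hB0
            linarith
        _ = _ := by ring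
    · intro q hq
      calc 1 / (q : ℝ) * ∑ d ∈ D q, f d ≤ 1 / (q : ℝ) * ∑ d ∈ D q, (1 : ℝ) :=
            mul_le_mul_of_nonneg_left (sum_le_sum fun d _ => hf1 d) (by positivity)
        _ = 1 / (q : ℝ) * ((D q).card : ℝ) := by simp
        _ ≤ 1 / (q : ℝ) * (X / (q : ℝ)) :=
            mul_le_mul_of_nonneg_left (card_mult X q _) (by positivity)
        _ = X * (1 / (q : ℝ) ^ 2) := by ring
  -- the conclusion
  have herr := err_bound τ X hX E hE hη hR hA
  rw [← hB] at herr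
  set err : ℝ := 1 + E * R + (A * B + X / A) with herr'
  set e3 : ℝ := Real.exp (-(K / 3 : ℝ)) with he3
  have he30 : 0 < e3 := Real.exp_pos _
  have he31 : e3 ≤ 1 := by
    rw [he3, Real.exp_le_one_iff]
    have : (0 : ℝ) ≤ K := by positivity
    linarith
  have hmain : e3 * ((1 + K / 3) * ∑ d ∈ Sq, f d - K * ∑ d ∈ Sq, f d * ∑ p ∈ d.primeFactors, 1 / (p : ℝ)) ≤
      ∑ d ∈ Sq, f d * (∏ p ∈ d.primeFactors, (1 + (K : ℝ) / p))⁻¹ := by
    calc e3 * ((1 + K / 3) * ∑ d ∈ Sq, f d - K * ∑ d ∈ Sq, f d * ∑ p ∈ d.primeFactors, 1 / (p : ℝ))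
        = ∑ d ∈ Sq, f d * (e3 * (1 + K / 3 - K * ∑ p ∈ d.primeFactors, 1 / (p : ℝ))) := by
          rw [Finset.mul_sum, Finset.mul_sum, ← Finset.sum_sub_distrib, Finset.mul_sum]
          apply sum_congr rfl
          intro d _
          ring
      _ ≤ _ := sum_le_sum fun d _ => mul_le_mul_of_nonneg_left (weight_ge K d) (hf0 d)
  have hK : (0 : ℝ) ≤ K := by positivity
  have h1 : (1 + (K : ℝ) / 3) * (3 / 4 * M - err) ≤ (1 + K / 3) * ∑ d ∈ Sq, f d := by
    apply mul_le_mul_of_nonneg_left _ (by positivity)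
    have : 3 / 4 * M - err = M - (1 + E * R) - (M / 4 + A * B + X / A) := by
      rw [herr']
      ring
    rw [this]
    exact hS0
  have hER : 0 ≤ 1 + E * R := by positivity
  have h2 : (K : ℝ) * ∑ d ∈ Sq, f d * ∑ p ∈ d.primeFactors, 1 / (p : ℝ) ≤ K * (1 / 4 * M + err) := by
    apply mul_le_mul_of_nonneg_left _ hK
    refine hT.trans ?_
    rw [herr']
    linarith
  have herr0 : 0 ≤ err := by rw [herr']; positivity
  have h3 : e3 * (3 / 4 * M) - (1 + 4 * K / 3) * err ≤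
      ∑ d ∈ Sq, f d * (∏ p ∈ d.primeFactors, (1 + (K : ℝ) / p))⁻¹ := by
    refine le_trans ?_ hmain
    have h4 : 3 / 4 * M - (1 + 4 * K / 3) * err ≤ (1 + K / 3) * ∑ d ∈ Sq, f d -
        K * ∑ d ∈ Sq, f d * ∑ p ∈ d.primeFactors, 1 / (p : ℝ) := by
      have : (1 + (K : ℝ) / 3) * (3 / 4 * M - err) - K * (1 / 4 * M + err) =
        3 / 4 * M - (1 + 4 * K / 3) * err := by ring
      linarith
    have h5 := mul_le_mul_of_nonneg_left h4 he30.le
    refine le_trans ?_ h5
    have h6 : e3 * ((1 + 4 * K / 3) * err) ≤ 1 * ((1 + 4 * K / 3) * err) :=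
      mul_le_mul_of_nonneg_right he31 (by positivity)
    have e : e3 * (3 / 4 * M - (1 + 4 * K / 3) * err) = e3 * (3 / 4 * M) - e3 * ((1 + 4 * K / 3) * err) := by
      ring
    rw [e]
    linarith
  refine le_trans ?_ h3
  have h7 : (1 + 4 * (K : ℝ) / 3) * err ≤
      (1 + 4 * K / 3) * ((4 + 2 * E * 2 ^ (2 * τ + 1)) * (X : ℝ) ^ (1 - η)) :=
    mul_le_mul_of_nonneg_left herr (by positivity)
  have h8 : e3 * (3 / 64) * Δ ^ 2 * X ≤ e3 * (3 / 4 * M) := by
    rw [hM]
    have h9 : e3 * (3 / 64) * Δ ^ 2 * X = e3 * (3 / 4 * (Δ ^ 2 * ((X : ℝ) / 2 / 8))) := by ring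
    rw [h9]
    apply mul_le_mul_of_nonneg_left _ he30.le
    apply mul_le_mul_of_nonneg_left _ (by norm_num)
    apply mul_le_mul_of_nonneg_left _ hΔ0
    linarith
  rw [mul_assoc (1 + 4 * (K : ℝ) / 3)]
  linarith

theorem t_SQW (prg : S_PRG) (_ra : S_RA) : S_SQW := t_SQW0 prg

end

end Pool.Agent.H28.BR2
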