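import Pool.Agent.H28.BR.Stm
import Pool.Graph.R_pool_sql_team_seeded_3997aac3.Q153.FM.J1
import Pool.Graph.R_pool_sql_team_seeded_3997aac3.Q153.FM.J2

set_option autoImplicit false

/-! Project BR (helper28), module GWE (helper68). -/

namespace Pool.Agent.H68.BR

open Finset Filter Topology MeasureTheory Pool.Agent.H306R2.RZ Pool.Agent.H306R2.RG
open Pool.Agent.Q122.FM Pool.Agent.H28.BR Pool.Agent.Q153.FM

noncomputable section

theorem gwe_js_abs (k : ℤ) (n : ℕ) : |js k n| ≤ 1 := by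
  unfold js
  rcases jacobiSym.trichotomy k n with h | h | h <;> rw [h] <;> simp

theorem kap_nonneg {z : ℝ} (hz : 0 ≤ z) : 0 ≤ kap z :=
  mul_nonneg (Real.rpow_nonneg hz _) (Real.exp_pos _).le

/-- the squares are dominated by the fourth powers -/
theorem sq_kap (N : ℕ) {w : ℝ} (hw : 0 < w) :
    ∑ n ∈ (Icc 1 N).filter (fun n => Odd n ∧ IsSquare n), kap ((n : ℝ) ^ 2 * w) ≤
      ∑ v ∈ Icc 1 N, kap (w * (v : ℝ) ^ 4) := by
  have h1 : (Icc 1 N).filter (fun n => Odd n ∧ IsSquare n) ⊆ (Icc 1 N).image (fun v => v * v) := by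
    intro n hn
    rw [Finset.mem_filter, Finset.mem_Icc] at hn
    obtain ⟨⟨h1, h2⟩, _, v, hv⟩ := hn
    rw [Finset.mem_image]
    refine ⟨v, ?_, hv.symm⟩
    rw [Finset.mem_Icc]
    have hv1 : 1 ≤ v := by
      rcases Nat.eq_zero_or_pos v with h | h
      · rw [h] at hv
        omega
      · exact h
    exact ⟨hv1, by nlinarith⟩
  refine (Finset.sum_le_sum_of_subset_of_nonneg h1 fun n _ _ => kap_nonneg (by positivity)).trans ?_
  rw [Finset.sum_image]
  · refine le_of_eq (Finset.sum_congr rfl fun v _ => ?_)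
    congr 1
    push_cast
    ring
  · intro a _ b _ h
    simp only at h
    exact Nat.mul_self_inj.1 h

/-- the difference of the two sums -/
theorem NA_sub (e : ℤ) (k : ℕ → ℝ) (N d : ℕ) :
    NA e k N d - N1 e k N d =
      ∑ n ∈ (Icc 1 N).filter (fun n => Odd n ∧ IsSquare n), js (e * (d : ℤ)) n * k n := by
  unfold NA N1
  have h := Finset.sum_filter_add_sum_filter_not ((Icc 1 N).filter (fun n => Odd n))
    (fun n => IsSquare n) (fun n => js (e * (d : ℤ)) n * k n)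
  rw [Finset.filter_filter, Finset.filter_filter] at h
  linarith

theorem log_nine_le : Real.log 9 ≤ 3 := by
  have h9 : Real.log 9 = 2 * Real.log 3 := by
    rw [show (9 : ℝ) = 3 ^ 2 by norm_num, Real.log_pow]
    norm_num
  have h3 : Real.log 3 ≤ 3 / 2 := by
    rw [Real.log_le_iff_le_exp (by norm_num)]
    have h1 := Real.add_one_le_exp (1 / 2 : ℝ)
    have h2 : Real.exp (3 / 2) = Real.exp 1 * Real.exp (1 / 2) := by
      rw [← Real.exp_add]
      norm_num
    have h4 := Real.exp_one_gt_d9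
    rw [h2]
    nlinarith
  linarith

/-- the part of the squares -/
theorem ES_bd (kra : S_KRA) (ker : S_KER) (ks : S_KS) : ∃ C : ℝ, 0 < C ∧ ∀ p : Par, p.ok →
    ∀ (N d : ℕ) (z : ℝ), 0 < z → z ≤ 1 → |ES p N d z| ≤ C * (Real.log (1 / z) + 8) := by
  obtain ⟨⟨C0, hC0, k0⟩, k1⟩ := ker
  obtain ⟨C2, hC2, k2⟩ := ks
  refine ⟨C0 * C2, by positivity, fun p hp N d z hz hz1 => ?_⟩
  obtain ⟨ia, ea⟩ := kra p hp N d z hz
  obtain ⟨ib, eb⟩ := k1 p hp N d z hz
  obtain ⟨i1, v1⟩ := int_one hz hz1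
  have e : ES p N d z = ∫ w in Set.Ioi z, (w ^ (-(3 / 4) : ℝ) * NA p.e (kw p N w) N d -
      w ^ (-(3 / 4) : ℝ) * N1 p.e (kw p N w) N d) := by
    rw [integral_sub ia ib, ← ea, ← eb]
    unfold EA
    ring
  rw [e]
  have hpt : ∀ w ∈ Set.Ioi z, ‖w ^ (-(3 / 4) : ℝ) * NA p.e (kw p N w) N d -
      w ^ (-(3 / 4) : ℝ) * N1 p.e (kw p N w) N d‖ ≤ C0 * C2 * (w⁻¹ * Real.exp (-(w / 8))) := by
    intro w hw
    have hw0 : (0 : ℝ) < w := lt_trans hz hw
    rw [← mul_sub, NA_sub, Real.norm_eq_abs, abs_mul, abs_of_nonneg (Real.rpow_nonneg hw0.le _)]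
    have h1 : |∑ n ∈ (Icc 1 N).filter (fun n => Odd n ∧ IsSquare n),
        js (p.e * (d : ℤ)) n * kw p N w n| ≤ C0 * (C2 * w ^ (-(1 / 4) : ℝ) * Real.exp (-(w / 2))) := by
      refine (Finset.abs_sum_le_sum_abs _ _).trans ?_
      refine (Finset.sum_le_sum (g := fun n : ℕ => C0 * kap ((n : ℝ) ^ 2 * w)) fun n hn => ?_).trans ?_
      · have hn1 := (Finset.mem_Icc.mp (Finset.mem_filter.mp hn).1).1
        rw [abs_mul]
        refine (mul_le_of_le_one_left (abs_nonneg _) (gwe_js_abs _ _)).trans ?_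
        exact k0 p hp N n w hn1 hw0
      · rw [← Finset.mul_sum]
        refine mul_le_mul_of_nonneg_left ?_ (by linarith)
        exact (sq_kap N hw0).trans (k2 w N hw0)
    have r1 : w ^ (-(3 / 4) : ℝ) * w ^ (-(1 / 4) : ℝ) = w⁻¹ := by
      rw [← Real.rpow_add hw0, ← Real.rpow_neg_one]
      norm_num
    calc w ^ (-(3 / 4) : ℝ) * |∑ n ∈ (Icc 1 N).filter (fun n => Odd n ∧ IsSquare n),
          js (p.e * (d : ℤ)) n * kw p N w n|
        ≤ w ^ (-(3 / 4) : ℝ) * (C0 * (C2 * w ^ (-(1 / 4) : ℝ) * Real.exp (-(w / 2)))) :=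
          mul_le_mul_of_nonneg_left h1 (Real.rpow_nonneg hw0.le _)
      _ = C0 * C2 * ((w ^ (-(3 / 4) : ℝ) * w ^ (-(1 / 4) : ℝ)) * Real.exp (-(w / 2))) := by ring
      _ = C0 * C2 * (w⁻¹ * Real.exp (-(w / 2))) := by rw [r1]
      _ ≤ C0 * C2 * (w⁻¹ * Real.exp (-(w / 8))) := by
          refine mul_le_mul_of_nonneg_left (mul_le_mul_of_nonneg_left ?_ (by positivity)) (by positivity)
          exact Real.exp_le_exp.2 (by linarith)
  calc |∫ w in Set.Ioi z, (w ^ (-(3 / 4) : ℝ) * NA p.e (kw p N w) N d -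
      w ^ (-(3 / 4) : ℝ) * N1 p.e (kw p N w) N d)|
      ≤ ∫ w in Set.Ioi z, C0 * C2 * (w⁻¹ * Real.exp (-(w / 8))) := by
        rw [← Real.norm_eq_abs]
        refine norm_integral_le_of_norm_le (i1.const_mul _) ?_
        rw [ae_restrict_iff' measurableSet_Ioi]
        exact Eventually.of_forall hpt
    _ = C0 * C2 * ∫ w in Set.Ioi z, w⁻¹ * Real.exp (-(w / 8)) := by rw [integral_const_mul]
    _ ≤ C0 * C2 * (Real.log (1 / z) + 8) := mul_le_mul_of_nonneg_left v1 (by positivity)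

/-- the part of the non-squares -/
theorem EN_bd (ls1 : S_LS1) (ker : S_KER) : ∃ C : ℝ, 0 < C ∧ ∀ p : Par, p.ok → ∀ c : ℕ, c < 8 → Odd c →
    ∀ (X N : ℕ) (u : ℕ → ℝ), 1 ≤ X →
    ∑ d ∈ (Icc 1 X).filter (fun d => d % 8 = c), |u d| * |EN p N d (1 / (p.r * (d : ℝ)))| ≤
      C * Real.sqrt (∑ d ∈ Icc 1 X, u d ^ 2) * Real.sqrt X * lg X ^ (3 / 2 : ℝ) := by
  obtain ⟨C1, hC1, h1⟩ := ls1
  obtain ⟨⟨C0, hC0, k0⟩, k1⟩ := ker
  have hC00 : 0 < C0 := by linarith
  refine ⟨C0 * Real.sqrt C1 * 2 * 18, by positivity, fun p hp c hc8 hco X N u hX => ?_⟩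
  have hr1 : 1 ≤ p.r := hp.2.1.1
  have hr8 : p.r ≤ 8 := hp.2.1.2
  have hr1' : (1 : ℝ) ≤ p.r := by exact_mod_cast hr1
  have hr8' : (p.r : ℝ) ≤ 8 := by exact_mod_cast hr8
  have hX1 : (1 : ℝ) ≤ X := by exact_mod_cast hX
  have hX0 : (0 : ℝ) < X := by linarith
  have hL0 : 0 ≤ Real.log X := Real.log_nonneg hX1
  have hL1 : 1 ≤ lg X := by unfold lg; linarith
  have hL : 0 < lg X := by linarith
  set D2 : Finset ℕ := (Icc 1 X).filter (fun d => d % 8 = c) with hD2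
  set V : ℝ := ∑ d ∈ Icc 1 X, u d ^ 2 with hV
  have hV0 : 0 ≤ V := Finset.sum_nonneg fun _ _ => sq_nonneg _
  set z0 : ℝ := 1 / (p.r * X) with hz0
  have hz0p : 0 < z0 := by positivity
  have hz01 : z0 ≤ 1 := by
    rw [hz0, div_le_one (by positivity)]
    nlinarith
  have habs : ∀ d, IntegrableOn (fun w : ℝ => w ^ (-(3 / 4) : ℝ) * |N1 p.e (kw p N w) N d|)
      (Set.Ioi z0) := by
    intro d
    refine (k1 p hp N d z0 hz0p).1.abs.congr ?_
    rw [EventuallyEq, ae_restrict_iff' measurableSet_Ioi]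
    refine Eventually.of_forall fun w hw => ?_
    have hw0 : (0 : ℝ) < w := lt_trans hz0p hw
    rw [abs_mul, abs_of_nonneg (Real.rpow_nonneg hw0.le _)]
  set G : ℕ → ℝ := fun d => ∫ w in Set.Ioi z0, w ^ (-(3 / 4) : ℝ) * |N1 p.e (kw p N w) N d| with hG
  -- step A
  have hA : ∀ d ∈ D2, |EN p N d (1 / (p.r * (d : ℝ)))| ≤ G d := by
    intro d hd
    rw [hD2, Finset.mem_filter, Finset.mem_Icc] at hd
    have hdX : (d : ℝ) ≤ X := by exact_mod_cast hd.1.2
    have hd0 : (0 : ℝ) < d := by exact_mod_cast hd.1.1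
    have hzy : 0 < 1 / (p.r * (d : ℝ)) := by positivity
    have hzz : z0 ≤ 1 / (p.r * (d : ℝ)) :=
      one_div_le_one_div_of_le (by positivity) (mul_le_mul_of_nonneg_left hdX (by positivity))
    rw [(k1 p hp N d _ hzy).2]
    calc |∫ w in Set.Ioi (1 / (p.r * (d : ℝ))), w ^ (-(3 / 4) : ℝ) * N1 p.e (kw p N w) N d|
        ≤ ∫ w in Set.Ioi (1 / (p.r * (d : ℝ))), |w ^ (-(3 / 4) : ℝ) * N1 p.e (kw p N w) N d| :=
          abs_integral_le_integral_abs
      _ = ∫ w in Set.Ioi (1 / (p.r * (d : ℝ))), w ^ (-(3 / 4) : ℝ) *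
          |N1 p.e (kw p N w) N d| := by
          refine setIntegral_congr_fun measurableSet_Ioi fun w hw => ?_
          have hw0 : (0 : ℝ) < w := lt_trans hzy hw
          rw [abs_mul, abs_of_nonneg (Real.rpow_nonneg hw0.le _)]
      _ ≤ G d := by
          refine setIntegral_mono_set (habs d) ?_ (Set.Ioi_subset_Ioi hzz).eventuallyLE
          rw [EventuallyLE, ae_restrict_iff' measurableSet_Ioi]
          refine Eventually.of_forall fun w hw => ?_
          have hw0 : (0 : ℝ) < w := lt_trans hz0p hw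
          exact mul_nonneg (Real.rpow_nonneg hw0.le _) (abs_nonneg _)
  have hW : ∑ d ∈ D2, |u d| * |EN p N d (1 / (p.r * (d : ℝ)))| ≤ ∑ d ∈ D2, |u d| * G d :=
    Finset.sum_le_sum fun d hd => mul_le_mul_of_nonneg_left (hA d hd) (abs_nonneg _)
  -- step C: the pointwise bound
  set K : ℝ := Real.sqrt V * (C0 * Real.sqrt C1 * (2 * Real.sqrt (lg X))) with hK
  have hK0 : 0 ≤ K := by positivity
  have hRA : ∑ d ∈ D2, u d ^ 2 ≤ V :=
    Finset.sum_le_sum_of_subset_of_nonneg (Finset.filter_subset _ _) fun d _ _ => sq_nonneg _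
  have hC : ∀ w ∈ Set.Ioi z0, w ^ (-(3 / 4) : ℝ) * ∑ d ∈ D2, |u d| * |N1 p.e (kw p N w) N d| ≤
      K * (Real.sqrt X * (w⁻¹ * Real.exp (-(w / 8))) + w ^ (-(3 / 2) : ℝ)) := by
    intro w hw
    have hw0 : (0 : ℝ) < w := lt_trans hz0p hw
    have hk : ∀ n : ℕ, 1 ≤ n → |kw p N w n / C0| ≤ kap ((n : ℝ) ^ 2 * w) := by
      intro n hn
      rw [abs_div, abs_of_pos hC00, div_le_iff₀ hC00, mul_comm]
      exact k0 p hp N n w hn hw0
    have h2 := h1 w hw0 _ hk p.e hp.1 c hc8 hco 1 odd_one X 1 N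
    rw [win_one] at h2
    have h3 : ∑ d ∈ D2, N1 p.e (kw p N w) N d ^ 2 ≤ C0 ^ 2 * (C1 * ((X : ℝ) + 1 / w) *
        w ^ (-(1 / 2) : ℝ) * (1 + Real.log (1 + 1 / w)) * Real.exp (-(w / 4))) := by
      have e : ∀ d, N1 p.e (kw p N w) N d ^ 2 =
          C0 ^ 2 * N1 p.e (fun n => kw p N w n / C0) N d ^ 2 := by
        intro d
        rw [N1_smul p.e _ N d hC00.ne', mul_pow]
      simp only [e]
      rw [← Finset.mul_sum]
      refine mul_le_mul_of_nonneg_left (h2.trans (le_of_eq ?_)) (by positivity)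
      push_cast
      ring
    -- Cauchy-Schwarz
    have h4 : ∑ d ∈ D2, |u d| * |N1 p.e (kw p N w) N d| ≤ Real.sqrt V *
        Real.sqrt (∑ d ∈ D2, N1 p.e (kw p N w) N d ^ 2) := by
      have := Real.sum_mul_le_sqrt_mul_sqrt D2 (fun d => |u d|)
        (fun d => |N1 p.e (kw p N w) N d|)
      simp only [sq_abs] at this
      exact this.trans (mul_le_mul_of_nonneg_right (Real.sqrt_le_sqrt hRA) (Real.sqrt_nonneg _))
    have hlw : 1 + Real.log (1 + 1 / w) ≤ 4 * lg X := by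
      have h5 : 1 / w ≤ p.r * X := by
        rw [hz0] at hw
        have := one_div_lt_one_div_of_lt hz0p hw
        rw [hz0, one_div_one_div] at this
        exact this.le
      have h6 : 1 + 1 / w ≤ 9 * X := by
        have : (p.r : ℝ) * X ≤ 8 * X := mul_le_mul_of_nonneg_right hr8' hX0.le
        linarith
      have h7 : Real.log (1 + 1 / w) ≤ Real.log (9 * X) := Real.log_le_log (by positivity) h6
      have h8 : Real.log (9 * X) = Real.log 9 + Real.log X := Real.log_mul (by norm_num) hX0.ne'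
      have h9 := log_nine_le
      unfold lg
      linarith
    have hlw0 : 0 ≤ Real.log (1 + 1 / w) := Real.log_nonneg (by
      have : 0 < 1 / w := by positivity
      linarith)
    -- the square root
    have h11 : Real.sqrt (∑ d ∈ D2, N1 p.e (kw p N w) N d ^ 2) ≤ C0 * Real.sqrt C1 *
        (2 * Real.sqrt (lg X)) * ((Real.sqrt X + w ^ (-(1 / 2) : ℝ)) *
        w ^ (-(1 / 4) : ℝ) * Real.exp (-(w / 8))) := by
      refine Real.sqrt_le_iff.mpr ⟨by positivity, h3.trans ?_⟩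
      have q1 : Real.sqrt C1 ^ 2 = C1 := Real.sq_sqrt hC1.le
      have q3 : Real.sqrt (lg X) ^ 2 = lg X := Real.sq_sqrt hL.le
      have q4 : (w ^ (-(1 / 4) : ℝ)) ^ 2 = w ^ (-(1 / 2) : ℝ) := by
        rw [← Real.rpow_natCast, ← Real.rpow_mul hw0.le]
        norm_num
      have q5 : Real.exp (-(w / 8)) ^ 2 = Real.exp (-(w / 4)) := by
        rw [← Real.exp_nat_mul]
        congr 1
        push_cast
        ring
      have q6 : (w ^ (-(1 / 2) : ℝ)) ^ 2 = 1 / w := by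
        rw [← Real.rpow_natCast, ← Real.rpow_mul hw0.le,
          show (-(1 / 2) : ℝ) * ((2 : ℕ) : ℝ) = -1 by norm_num, Real.rpow_neg_one, one_div]
      have q7 : Real.sqrt X ^ 2 = X := Real.sq_sqrt hX0.le
      have q8 : (X : ℝ) + 1 / w ≤ (Real.sqrt X + w ^ (-(1 / 2) : ℝ)) ^ 2 := by
        rw [add_sq, q7, q6]
        have : 0 ≤ 2 * (Real.sqrt X) * w ^ (-(1 / 2) : ℝ) := by positivity
        linarith
      calc C0 ^ 2 * (C1 * ((X : ℝ) + 1 / w) * w ^ (-(1 / 2) : ℝ) *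
            (1 + Real.log (1 + 1 / w)) * Real.exp (-(w / 4)))
          ≤ C0 ^ 2 * (C1 * (Real.sqrt X + w ^ (-(1 / 2) : ℝ)) ^ 2 * w ^ (-(1 / 2) : ℝ) *
            (4 * lg X) * Real.exp (-(w / 4))) := by
            gcongr
        _ = (C0 * Real.sqrt C1 * (2 * Real.sqrt (lg X)) *
            ((Real.sqrt X + w ^ (-(1 / 2) : ℝ)) * w ^ (-(1 / 4) : ℝ) *
              Real.exp (-(w / 8)))) ^ 2 := by
            simp only [mul_pow]
            rw [q1, q3, q4, q5]
            ring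
    have h12 : ∑ d ∈ D2, |u d| * |N1 p.e (kw p N w) N d| ≤
        K * ((Real.sqrt X + w ^ (-(1 / 2) : ℝ)) *
        w ^ (-(1 / 4) : ℝ) * Real.exp (-(w / 8))) := by
      refine h4.trans ((mul_le_mul_of_nonneg_left h11 (Real.sqrt_nonneg _)).trans (le_of_eq ?_))
      rw [hK]
      ring
    have r1 : w ^ (-(3 / 4) : ℝ) * w ^ (-(1 / 4) : ℝ) = w⁻¹ := by
      rw [← Real.rpow_add hw0, ← Real.rpow_neg_one]
      norm_num
    have r2 : w ^ (-(1 / 2) : ℝ) * w⁻¹ = w ^ (-(3 / 2) : ℝ) := by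
      rw [← Real.rpow_neg_one, ← Real.rpow_add hw0]
      norm_num
    calc w ^ (-(3 / 4) : ℝ) * ∑ d ∈ D2, |u d| * |N1 p.e (kw p N w) N d|
        ≤ w ^ (-(3 / 4) : ℝ) * (K * ((Real.sqrt X + w ^ (-(1 / 2) : ℝ)) *
          w ^ (-(1 / 4) : ℝ) * Real.exp (-(w / 8)))) :=
          mul_le_mul_of_nonneg_left h12 (Real.rpow_nonneg hw0.le _)
      _ = K * (Real.sqrt X * ((w ^ (-(3 / 4) : ℝ) * w ^ (-(1 / 4) : ℝ)) *
          Real.exp (-(w / 8))) +
          w ^ (-(1 / 2) : ℝ) * (w ^ (-(3 / 4) : ℝ) * w ^ (-(1 / 4) : ℝ)) * Real.exp (-(w / 8))) := by ring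
      _ = K * (Real.sqrt X * (w⁻¹ * Real.exp (-(w / 8))) +
          w ^ (-(3 / 2) : ℝ) * Real.exp (-(w / 8))) := by rw [r1, r2]
      _ ≤ K * (Real.sqrt X * (w⁻¹ * Real.exp (-(w / 8))) + w ^ (-(3 / 2) : ℝ)) := by
          refine mul_le_mul_of_nonneg_left (add_le_add le_rfl ?_) hK0
          refine mul_le_of_le_one_right (Real.rpow_nonneg hw0.le _) ?_
          rw [Real.exp_le_one_iff]
          linarith
  -- step B
  obtain ⟨i1, v1⟩ := int_one hz0p hz01
  obtain ⟨i2, v2⟩ := int_two hz0p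
  have habs2 : ∀ d, IntegrableOn (fun w : ℝ => w ^ (-(3 / 4) : ℝ) *
      (|u d| * |N1 p.e (kw p N w) N d|)) (Set.Ioi z0) := by
    intro d
    refine ((habs d).const_mul |u d|).congr (Eventually.of_forall fun w => ?_)
    ring
  have hsumI : IntegrableOn (fun w : ℝ => w ^ (-(3 / 4) : ℝ) *
      ∑ d ∈ D2, |u d| * |N1 p.e (kw p N w) N d|) (Set.Ioi z0) := by
    simp only [Finset.mul_sum]
    exact integrable_finsetSum _ fun d _ => habs2 d
  have hB : ∑ d ∈ D2, |u d| * G d ≤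
      K * (Real.sqrt X * (Real.log (1 / z0) + 8) + 2 * z0 ^ (-(1 / 2) : ℝ)) := by
    calc ∑ d ∈ D2, |u d| * G d
        = ∑ d ∈ D2, ∫ w in Set.Ioi z0, w ^ (-(3 / 4) : ℝ) *
          (|u d| * |N1 p.e (kw p N w) N d|) := by
          refine Finset.sum_congr rfl fun d _ => ?_
          simp only [hG]
          rw [← integral_const_mul]
          refine integral_congr_ae (Eventually.of_forall fun w => ?_)
          ring
      _ = ∫ w in Set.Ioi z0, w ^ (-(3 / 4) : ℝ) *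
          ∑ d ∈ D2, |u d| * |N1 p.e (kw p N w) N d| := by
          rw [← integral_finsetSum _ fun d _ => habs2 d]
          simp only [Finset.mul_sum]
      _ ≤ ∫ w in Set.Ioi z0, K * (Real.sqrt X * (w⁻¹ * Real.exp (-(w / 8))) +
          w ^ (-(3 / 2) : ℝ)) :=
          setIntegral_mono_on hsumI (((i1.const_mul _).add i2).const_mul K) measurableSet_Ioi hC
      _ = K * (Real.sqrt X * (∫ w in Set.Ioi z0, w⁻¹ * Real.exp (-(w / 8))) +
          ∫ w in Set.Ioi z0, w ^ (-(3 / 2) : ℝ)) := by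
          rw [integral_const_mul, integral_add (i1.const_mul _) i2, integral_const_mul]
      _ ≤ K * (Real.sqrt X * (Real.log (1 / z0) + 8) + 2 * z0 ^ (-(1 / 2) : ℝ)) := by
          rw [v2]
          gcongr
  have e1 : 1 / z0 = p.r * X := by rw [hz0, one_div_one_div]
  have e2 : Real.log (1 / z0) + 8 ≤ 12 * lg X := by
    rw [e1, Real.log_mul (by positivity) hX0.ne']
    have h13 : Real.log p.r ≤ Real.log 9 := Real.log_le_log (by positivity) (by linarith)
    have h9 := log_nine_le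
    unfold lg
    linarith
  have e3 : z0 ^ (-(1 / 2) : ℝ) ≤ 3 * Real.sqrt X := by
    rw [Real.rpow_neg hz0p.le, ← Real.inv_rpow hz0p.le, ← one_div, e1, ← Real.sqrt_eq_rpow]
    have : (3 : ℝ) * Real.sqrt X = Real.sqrt (9 * X) := by
      rw [Real.sqrt_mul (by norm_num), show (9 : ℝ) = 3 ^ 2 by norm_num, Real.sqrt_sq (by norm_num)]
    rw [this]
    refine Real.sqrt_le_sqrt ?_
    have : (p.r : ℝ) * X ≤ 8 * X := mul_le_mul_of_nonneg_right hr8' hX0.le
    linarith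
  have e6 : lg X ^ (3 / 2 : ℝ) = lg X * Real.sqrt (lg X) := by
    rw [show (3 / 2 : ℝ) = 1 + 1 / 2 by norm_num, Real.rpow_add hL, Real.rpow_one,
      Real.sqrt_eq_rpow]
  refine hW.trans (hB.trans ?_)
  calc K * (Real.sqrt X * (Real.log (1 / z0) + 8) + 2 * z0 ^ (-(1 / 2) : ℝ))
      ≤ K * (Real.sqrt X * (12 * lg X) + 2 * (3 * Real.sqrt X)) := by gcongr
    _ ≤ K * (18 * (Real.sqrt X * lg X)) := by
        refine mul_le_mul_of_nonneg_left ?_ hK0
        have h1 := Real.sqrt_nonneg (X : ℝ)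
        nlinarith
    _ = C0 * Real.sqrt C1 * 2 * 18 * Real.sqrt V * Real.sqrt X * (lg X * Real.sqrt (lg X)) := by
        rw [hK]
        ring
    _ = _ := by rw [e6]

theorem t_GWE (kra : S_KRA) (ls1 : S_LS1) (ker : S_KER) (ks : S_KS) : S_GWE := by
  obtain ⟨C1, hC1, h1⟩ := EN_bd ls1 ker
  obtain ⟨C2, hC2, h2⟩ := ES_bd kra ker ks
  refine ⟨C1 + C2 * 12, by positivity, fun p hp c hc8 hco X N u hX => ?_⟩
  have hr1 : 1 ≤ p.r := hp.2.1.1
  have hr8 : p.r ≤ 8 := hp.2.1.2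
  have hr1' : (1 : ℝ) ≤ p.r := by exact_mod_cast hr1
  have hr8' : (p.r : ℝ) ≤ 8 := by exact_mod_cast hr8
  have hX1 : (1 : ℝ) ≤ X := by exact_mod_cast hX
  have hX0 : (0 : ℝ) < X := by linarith
  have hL0 : 0 ≤ Real.log X := Real.log_nonneg hX1
  have hL1 : 1 ≤ lg X := by unfold lg; linarith
  have hL : 0 < lg X := by linarith
  have hE := h1 p hp c hc8 hco X N u hX
  set D2 : Finset ℕ := (Icc 1 X).filter (fun d => d % 8 = c) with hD2
  set V : ℝ := ∑ d ∈ Icc 1 X, u d ^ 2 with hV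
  have hV0 : 0 ≤ V := Finset.sum_nonneg fun _ _ => sq_nonneg _
  have hS : ∀ d ∈ D2, |ES p N d (1 / (p.r * (d : ℝ)))| ≤ C2 * (12 * lg X) := by
    intro d hd
    rw [hD2, Finset.mem_filter, Finset.mem_Icc] at hd
    have hdX : (d : ℝ) ≤ X := by exact_mod_cast hd.1.2
    have hd1 : (1 : ℝ) ≤ d := by exact_mod_cast hd.1.1
    have hd0 : (0 : ℝ) < d := by linarith
    have hz : 0 < 1 / (p.r * (d : ℝ)) := by positivity
    have hz1 : 1 / (p.r * (d : ℝ)) ≤ 1 := by
      rw [div_le_one (by positivity)]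
      nlinarith
    refine (h2 p hp N d _ hz hz1).trans (mul_le_mul_of_nonneg_left ?_ hC2.le)
    rw [one_div_one_div, Real.log_mul (by positivity) hd0.ne']
    have h13 : Real.log p.r ≤ Real.log 9 := Real.log_le_log (by positivity) (by linarith)
    have h14 : Real.log d ≤ Real.log X := Real.log_le_log hd0 hdX
    have h9 := log_nine_le
    unfold lg
    linarith
  have hCS : ∑ d ∈ D2, |u d| ≤ Real.sqrt V * Real.sqrt X := by
    have h := Real.sum_mul_le_sqrt_mul_sqrt D2 (fun d => |u d|) (fun _ => 1)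
    simp only [sq_abs, mul_one, one_pow, Finset.sum_const, nsmul_eq_mul] at h
    refine h.trans (mul_le_mul (Real.sqrt_le_sqrt ?_) (Real.sqrt_le_sqrt ?_) (Real.sqrt_nonneg _)
      (Real.sqrt_nonneg _))
    · exact Finset.sum_le_sum_of_subset_of_nonneg (Finset.filter_subset _ _) fun d _ _ => sq_nonneg _
    · have h3 : D2.card ≤ (Icc 1 X).card := Finset.card_le_card (Finset.filter_subset _ _)
      rw [Nat.card_Icc] at h3
      have h4 : D2.card ≤ X := by omega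
      exact_mod_cast h4
  have e6 : lg X ≤ lg X ^ (3 / 2 : ℝ) := by
    have := Real.rpow_le_rpow_of_exponent_le hL1 (show (1 : ℝ) ≤ 3 / 2 by norm_num)
    rwa [Real.rpow_one] at this
  calc ∑ d ∈ D2, |u d| * |EA p N d (1 / (p.r * (d : ℝ)))|
      ≤ ∑ d ∈ D2, (|u d| * |EN p N d (1 / (p.r * (d : ℝ)))| + |u d| * (C2 * (12 * lg X))) := by
        refine Finset.sum_le_sum fun d hd => ?_
        rw [← mul_add]
        refine mul_le_mul_of_nonneg_left ?_ (abs_nonneg _)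
        unfold EA
        exact (abs_add_le _ _).trans (add_le_add le_rfl (hS d hd))
    _ = ∑ d ∈ D2, |u d| * |EN p N d (1 / (p.r * (d : ℝ)))| + (∑ d ∈ D2, |u d|) * (C2 * (12 * lg X)) := by
        rw [Finset.sum_add_distrib, Finset.sum_mul]
    _ ≤ C1 * Real.sqrt V * Real.sqrt X * lg X ^ (3 / 2 : ℝ) +
        (Real.sqrt V * Real.sqrt X) * (C2 * (12 * lg X ^ (3 / 2 : ℝ))) := by
        refine add_le_add hE (mul_le_mul hCS ?_ (by positivity) (by positivity))
        gcongr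
    _ = (C1 + C2 * 12) * Real.sqrt V * Real.sqrt X * lg X ^ (3 / 2 : ℝ) := by ring

end

end Pool.Agent.H68.BR
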