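import Pool.Agent.H28.BR.Stm
import Pool.Graph.R_pool_sql_team_seeded_3997aac3.Q122.FM.Dec2

set_option autoImplicit false

/-!
# Project BR: PTW (helper68)

The twisted sum over the odd `n ≤ N`, `n = s u²`, Moebius inversion for the coprimality of `u` and `d`.
-/

namespace Pool.Agent.H68.BR

open Finset Filter Topology MeasureTheory Pool.Agent.H306R2.RZ Pool.Agent.H306R2.RG
  Pool.Agent.Q122.FM Pool.Agent.H28.BR
open Pool.Agent.Helper112 (ee)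

noncomputable section

/-- odd squarefree numbers `s ≤ N` -/
def S1 (N : ℕ) : Finset ℕ := (Icc 1 N).filter (fun s => Odd s ∧ Squarefree s)

theorem sum_decomp1 (N : ℕ) (f : ℕ → ℝ) :
    ∑ n ∈ (Icc 1 N).filter (fun n => Odd n), f n =
      ∑ s ∈ S1 N, ∑ u ∈ (Icc 1 N).filter (fun u => Odd u ∧ s * u ^ 2 ≤ N), f (s * u ^ 2) := by
  rw [Finset.sum_sigma']
  symm
  apply Finset.sum_nbij (fun x : (Σ _ : ℕ, ℕ) => x.1 * x.2 ^ 2)
  · rintro ⟨s, u⟩ hx
    simp only [S1, mem_sigma, mem_filter, mem_Icc] at hx ⊢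
    obtain ⟨⟨⟨hs1, hsN⟩, hso, hss⟩, ⟨hu1, huN⟩, huo, hle⟩ := hx
    exact ⟨⟨Nat.mul_pos hs1 (pow_pos hu1 2), hle⟩, hso.mul (huo.pow)⟩
  · rintro ⟨s, u⟩ hx ⟨s', u'⟩ hx' h
    simp only [S1, mem_coe, mem_sigma, mem_filter, mem_Icc] at hx hx' h
    obtain ⟨a, b⟩ := sqf_unique hx.1.2.2 hx'.1.2.2 (by omega) (by omega) h
    subst a; subst b; rfl
  · intro n hn
    simp only [mem_coe, mem_filter, mem_Icc] at hn
    obtain ⟨⟨hn1, hnN⟩, hno⟩ := hn
    obtain ⟨s, u, hus, hs⟩ := Nat.sq_mul_squarefree n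
    have hus' : s * u ^ 2 = n := by rw [← hus]; ring
    have hu0 : u ≠ 0 := by
      rintro rfl
      simp at hus'; omega
    have hs0 : s ≠ 0 := hs.ne_zero
    have ho : Odd (s * u ^ 2) := hus' ▸ hno
    obtain ⟨hso, huo⟩ := Nat.odd_mul.1 ho
    have huo' : Odd u := by
      rw [Nat.odd_pow_iff (by norm_num)] at huo
      exact huo
    refine ⟨⟨s, u⟩, ?_, hus'⟩
    simp only [S1, coe_sigma, Set.mem_sigma_iff, mem_coe, mem_filter, mem_Icc]
    have hsn : s ≤ n := by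
      rw [← hus']
      exact Nat.le_mul_of_pos_right _ (pow_pos (Nat.pos_of_ne_zero hu0) 2)
    have hun : u ≤ n := by
      rw [← hus']
      calc u ≤ u ^ 2 := Nat.le_self_pow (by norm_num) u
        _ ≤ s * u ^ 2 := Nat.le_mul_of_pos_left _ (Nat.pos_of_ne_zero hs0)
    exact ⟨⟨⟨by omega, by omega⟩, hso, hs⟩, ⟨by omega, by omega⟩, huo', by omega⟩
  · intro x _
    rfl

/-- inner sum over `v` -/
def KG1 (k : ℕ → ℝ) (N g s : ℕ) : ℝ :=
  ∑ v ∈ (Icc 1 N).filter (fun v => Odd (g * v) ∧ s * (g * v) ^ 2 ≤ N), k (s * (g * v) ^ 2)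

theorem NA_eq {e : ℤ} (he : e = 1 ∨ e = -1 ∨ e = 2 ∨ e = -2) (k : ℕ → ℝ) (N d : ℕ) :
    NA e k N d = ∑ s ∈ S1 N, ∑ g ∈ Icc 1 N, if g ∣ d then
      ((ArithmeticFunction.moebius g : ℤ) : ℝ) * KG1 k N g s * js (e * (d : ℤ)) s else 0 := by
  unfold NA
  rw [sum_decomp1 N (fun n => js (e * (d : ℤ)) n * k n)]
  refine sum_congr rfl fun s hs => ?_
  simp only [S1, mem_filter, mem_Icc] at hs
  have hs0 : s ≠ 0 := by omega
  have h2 : ∑ u ∈ (Icc 1 N).filter (fun u => Odd u ∧ s * u ^ 2 ≤ N),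
      js (e * (d : ℤ)) (s * u ^ 2) * k (s * u ^ 2) =
      js (e * (d : ℤ)) s *
      ∑ u ∈ (Icc 1 N).filter (fun u => Odd u ∧ s * u ^ 2 ≤ N),
        (∑ g ∈ u.divisors.filter (fun g => g ∣ d), ((ArithmeticFunction.moebius g : ℤ) : ℝ)) *
          k (s * u ^ 2) := by
    rw [mul_sum]
    apply sum_congr rfl
    intro u hu
    simp only [mem_filter, mem_Icc] at hu
    rw [js_sq he d s u hu.2.1 hs0, cop_sum u d (by omega)]
    ring
  rw [h2, div_swap N d (fun u => Odd u ∧ s * u ^ 2 ≤ N) ?_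
      (fun u => k (s * u ^ 2)) (fun g => ((ArithmeticFunction.moebius g : ℤ) : ℝ))]
  · rw [sum_filter, mul_sum]
    refine sum_congr rfl fun g _ => ?_
    split_ifs with hg
    · show js (e * (d : ℤ)) s * (((ArithmeticFunction.moebius g : ℤ) : ℝ) * KG1 k N g s) = _
      ring
    · rw [mul_zero]
  · intro u hu
    have h3 : u ≤ u ^ 2 := Nat.le_self_pow (by norm_num) u
    have h4 : u ^ 2 ≤ s * u ^ 2 := Nat.le_mul_of_pos_left _ (Nat.pos_of_ne_zero hs0)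
    omega

theorem gd_nonneg {L : ℝ} (hL : 0 ≤ L) (x : ℝ) : 0 ≤ gd L x := by
  unfold gd nd
  positivity

theorem Psi_nonneg (s : ℕ) {L : ℝ} (hL : 0 ≤ L) (β : ℝ) : 0 ≤ Psi s L β :=
  sum_nonneg fun _ _ => gd_nonneg hL _

theorem KG1_abs {k K : ℕ → ℝ} (hk : ∀ n, 1 ≤ n → |k n| ≤ K n) (hK : ∀ n, 0 ≤ K n) (N g s : ℕ)
    (hg : 1 ≤ g) (hs : 1 ≤ s) :
    |KG1 k N g s| ≤ ∑ v ∈ Icc 1 N, K (s * (g * v) ^ 2) := by
  unfold KG1
  refine (abs_sum_le_sum_abs _ _).trans ?_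
  refine (sum_le_sum (g := fun v => K (s * (g * v) ^ 2)) fun v hv => ?_).trans
    (sum_le_sum_of_subset_of_nonneg (filter_subset _ _) fun v _ _ => hK _)
  simp only [mem_filter, mem_Icc] at hv
  exact hk _ (Nat.mul_pos hs (pow_pos (Nat.mul_pos hg (by omega)) 2))

theorem t_PTW (hAPS : S_APS) : S_PTW := by
  intro e he k K hk hK c a D0 X N θ hc8 hco ha
  have e1 : ∑ d ∈ (Ioc D0 X).filter (fun d => a ^ 2 ∣ d ∧ d % 8 = c), ee (θ * d) * (NA e k N d : ℂ) =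
      ∑ s ∈ S1 N, ∑ g ∈ Icc 1 N, ((((ArithmeticFunction.moebius g : ℤ) : ℝ) * KG1 k N g s : ℝ) : ℂ) *
        ∑ d ∈ (Ioc D0 X).filter (fun d => Nat.lcm (a ^ 2) g ∣ d ∧ d % 8 = c),
          (js (e * (d : ℤ)) s : ℂ) * ee (θ * d) := by
    have h1 : ∀ d ∈ (Ioc D0 X).filter (fun d => a ^ 2 ∣ d ∧ d % 8 = c),
        ee (θ * d) * (NA e k N d : ℂ) = ∑ s ∈ S1 N, ∑ g ∈ Icc 1 N, if g ∣ d then
          ((((ArithmeticFunction.moebius g : ℤ) : ℝ) * KG1 k N g s : ℝ) : ℂ) *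
            ((js (e * (d : ℤ)) s : ℂ) * ee (θ * d)) else 0 := by
      intro d _
      rw [NA_eq he, Complex.ofReal_sum, mul_sum]
      refine sum_congr rfl fun s _ => ?_
      rw [Complex.ofReal_sum, mul_sum]
      refine sum_congr rfl fun g _ => ?_
      split_ifs with hg
      · push_cast
        ring
      · simp
    rw [sum_congr rfl h1, sum_comm]
    refine sum_congr rfl fun s _ => ?_
    rw [sum_comm]
    refine sum_congr rfl fun g _ => ?_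
    rw [← sum_filter, filter_filter, mul_sum]
    refine sum_congr ?_ fun _ _ => rfl
    ext d
    simp only [mem_filter]
    constructor
    · rintro ⟨h2, ⟨h3, h4⟩, h5⟩
      exact ⟨h2, Nat.lcm_dvd h3 h5, h4⟩
    · rintro ⟨h2, h3, h4⟩
      exact ⟨h2, ⟨(Nat.dvd_lcm_left _ _).trans h3, h4⟩, (Nat.dvd_lcm_right _ _).trans h3⟩
  have hP : ∀ s g : ℕ, 0 ≤ Psi s ((X : ℝ) / (8 * (Nat.lcm (a ^ 2) g : ℕ)) + 1)
      (8 * (Nat.lcm (a ^ 2) g : ℕ) * θ) := fun s g => Psi_nonneg s (by positivity) _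
  have h2 : ∀ s ∈ S1 N, ∀ g ∈ Icc 1 N,
      ‖∑ d ∈ (Ioc D0 X).filter (fun d => Nat.lcm (a ^ 2) g ∣ d ∧ d % 8 = c),
          (js (e * (d : ℤ)) s : ℂ) * ee (θ * d)‖ ≤
        2 / Real.sqrt s * Psi s ((X : ℝ) / (8 * (Nat.lcm (a ^ 2) g : ℕ)) + 1)
          (8 * (Nat.lcm (a ^ 2) g : ℕ) * θ) := by
    intro s hs g _
    simp only [S1, mem_filter, mem_Icc] at hs
    by_cases hm : Odd (Nat.lcm (a ^ 2) g)
    · exact hAPS s hs.2.1 hs.2.2 e c _ D0 X θ hc8 hco hm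
    · have h3 : (Ioc D0 X).filter (fun d => Nat.lcm (a ^ 2) g ∣ d ∧ d % 8 = c) = ∅ := by
        rw [filter_eq_empty_iff]
        rintro d _ ⟨h4, h5⟩
        rw [Nat.not_odd_iff_even] at hm
        have h6 : 2 ∣ d := hm.two_dvd.trans h4
        obtain ⟨j, hj⟩ := hco
        omega
      rw [h3, sum_empty, norm_zero]
      exact mul_nonneg (by positivity) (hP s g)
  rw [e1]
  refine (norm_sum_le _ _).trans ?_
  have h3 : ∀ s ∈ S1 N, ‖∑ g ∈ Icc 1 N, ((((ArithmeticFunction.moebius g : ℤ) : ℝ) * KG1 k N g s : ℝ) : ℂ) *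
        ∑ d ∈ (Ioc D0 X).filter (fun d => Nat.lcm (a ^ 2) g ∣ d ∧ d % 8 = c),
          (js (e * (d : ℤ)) s : ℂ) * ee (θ * d)‖ ≤
      2 * ∑ g ∈ Icc 1 N, ∑ v ∈ Icc 1 N, K (s * (g * v) ^ 2) * (1 / Real.sqrt s) *
        Psi s ((X : ℝ) / (8 * (Nat.lcm (a ^ 2) g : ℕ)) + 1) (8 * (Nat.lcm (a ^ 2) g : ℕ) * θ) := by
    intro s hs
    have hs1 : 1 ≤ s := by
      simp only [S1, mem_filter, mem_Icc] at hs
      omega
    refine (norm_sum_le _ _).trans ?_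
    rw [mul_sum]
    refine sum_le_sum fun g hg => ?_
    rw [norm_mul, Complex.norm_real, Real.norm_eq_abs, abs_mul]
    have h4 : |((ArithmeticFunction.moebius g : ℤ) : ℝ)| ≤ 1 := by
      have := ArithmeticFunction.abs_moebius_le_one (n := g)
      rw [← Int.cast_abs]
      exact_mod_cast this
    have h5 := KG1_abs hk hK N g s (mem_Icc.1 hg).1 hs1
    have h6 : |((ArithmeticFunction.moebius g : ℤ) : ℝ)| * |KG1 k N g s| ≤
        ∑ v ∈ Icc 1 N, K (s * (g * v) ^ 2) :=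
      (mul_le_of_le_one_left (abs_nonneg _) h4).trans h5
    refine (mul_le_mul h6 (h2 s hs g hg) (norm_nonneg _) (sum_nonneg fun v _ => hK _)).trans (le_of_eq ?_)
    rw [sum_mul, mul_sum]
    refine sum_congr rfl fun v _ => ?_
    ring
  refine (sum_le_sum h3).trans ?_
  rw [← mul_sum]
  refine mul_le_mul_of_nonneg_left ?_ zero_le_two
  refine sum_le_sum_of_subset_of_nonneg (filter_subset _ _) fun s _ _ => ?_
  exact sum_nonneg fun g _ => sum_nonneg fun v _ =>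
    mul_nonneg (mul_nonneg (hK _) (by positivity)) (hP s g)

end

end Pool.Agent.H68.BR
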