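import Pool.Agent.H68.BR.GWE
import Pool.Agent.H28.BR.Stm3

set_option autoImplicit false

/-! Project BR3 (helper28), module MSQ (helper68). -/

namespace Pool.Agent.H68.BR

open Finset Filter Topology MeasureTheory Pool.Agent.H306R2.RZ Pool.Agent.H306R2.RG
open Pool.Agent.Q122.FM Pool.Agent.H28.BR Pool.Agent.Q153.FM

noncomputable section

/-- the integral of the non-squares from `1/(8X)` -/
def Gint (p : Par) (X N d : ℕ) : ℝ :=
  ∫ w in Set.Ioi (1 / (8 * (X : ℝ))), w ^ (-(3 / 4) : ℝ) * |N1 p.e (kw p N w) N d|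

/-- the dual form of the mean square of `Gint` -/
theorem G_bd (ls1 : S_LS1) (ker : S_KER) : ∃ C : ℝ, 0 < C ∧ ∀ p : Par, p.ok → ∀ c : ℕ, c < 8 → Odd c →
    ∀ (X N : ℕ) (u : ℕ → ℝ), 1 ≤ X →
    ∑ d ∈ (Icc 1 X).filter (fun d => d % 8 = c), |u d| * Gint p X N d ≤
      C * Real.sqrt (∑ d ∈ (Icc 1 X).filter (fun d => d % 8 = c), u d ^ 2) * Real.sqrt X *
        (lg X * Real.sqrt (lg X)) := by
  obtain ⟨C1, hC1, h1⟩ := ls1
  obtain ⟨⟨C0, hC0, k0⟩, k1⟩ := ker
  have hC00 : 0 < C0 := by linarith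
  refine ⟨C0 * Real.sqrt C1 * 2 * 18, by positivity, fun p hp c hc8 hco X N u hX => ?_⟩
  have hX1 : (1 : ℝ) ≤ X := by exact_mod_cast hX
  have hX0 : (0 : ℝ) < X := by linarith
  have hL0 : 0 ≤ Real.log X := Real.log_nonneg hX1
  have hL1 : 1 ≤ lg X := by unfold lg; linarith
  have hL : 0 < lg X := by linarith
  set D2 : Finset ℕ := (Icc 1 X).filter (fun d => d % 8 = c) with hD2
  set V : ℝ := ∑ d ∈ D2, u d ^ 2 with hV
  have hV0 : 0 ≤ V := Finset.sum_nonneg fun _ _ => sq_nonneg _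
  set z0 : ℝ := 1 / (8 * (X : ℝ)) with hz0
  have hz0p : 0 < z0 := by positivity
  have hz01 : z0 ≤ 1 := by
    rw [hz0, div_le_one (by positivity)]
    linarith
  have habs : ∀ d, IntegrableOn (fun w : ℝ => w ^ (-(3 / 4) : ℝ) * |N1 p.e (kw p N w) N d|)
      (Set.Ioi z0) := by
    intro d
    refine (k1 p hp N d z0 hz0p).1.abs.congr ?_
    rw [EventuallyEq, ae_restrict_iff' measurableSet_Ioi]
    refine Eventually.of_forall fun w hw => ?_
    have hw0 : (0 : ℝ) < w := lt_trans hz0p hw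
    rw [abs_mul, abs_of_nonneg (Real.rpow_nonneg hw0.le _)]
  -- step C: the pointwise bound
  set K : ℝ := Real.sqrt V * (C0 * Real.sqrt C1 * (2 * Real.sqrt (lg X))) with hK
  have hK0 : 0 ≤ K := by positivity
  have hRA : ∑ d ∈ D2, u d ^ 2 ≤ V := le_rfl
  have hC : ∀ w ∈ Set.Ioi z0, w ^ (-(3 / 4) : ℝ) * ∑ d ∈ D2, |u d| * |N1 p.e (kw p N w) N d| ≤
      K * (Real.sqrt X * (w⁻¹ * Real.exp (-(w / 8))) + w ^ (-(3 / 2) : ℝ)) := by
    intro w hw
    have hw0 : (0 : ℝ) < w := lt_trans hz0p hw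
    have hk : ∀ n : ℕ, 1 ≤ n → |kw p N w n / C0| ≤ kap ((n : ℝ) ^ 2 * w) := by
      intro n hn
      rw [abs_div, abs_of_pos hC00, div_le_iff₀ hC00, mul_comm]
      exact k0 p hp N n w hn hw0
    have h2 := h1 w hw0 _ hk p.e hp.1 c hc8 hco 1 odd_one X 1 N
    rw [win_one] at h2
    have h3 : ∑ d ∈ D2, N1 p.e (kw p N w) N d ^ 2 ≤ C0 ^ 2 * (C1 * ((X : ℝ) + 1 / w) *
        w ^ (-(1 / 2) : ℝ) * (1 + Real.log (1 + 1 / w)) * Real.exp (-(w / 4))) := by
      have e : ∀ d, N1 p.e (kw p N w) N d ^ 2 =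
          C0 ^ 2 * N1 p.e (fun n => kw p N w n / C0) N d ^ 2 := by
        intro d
        rw [N1_smul p.e _ N d hC00.ne', mul_pow]
      simp only [e]
      rw [← Finset.mul_sum]
      refine mul_le_mul_of_nonneg_left (h2.trans (le_of_eq ?_)) (by positivity)
      push_cast
      ring
    -- Cauchy-Schwarz
    have h4 : ∑ d ∈ D2, |u d| * |N1 p.e (kw p N w) N d| ≤ Real.sqrt V *
        Real.sqrt (∑ d ∈ D2, N1 p.e (kw p N w) N d ^ 2) := by
      have := Real.sum_mul_le_sqrt_mul_sqrt D2 (fun d => |u d|)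
        (fun d => |N1 p.e (kw p N w) N d|)
      simp only [sq_abs] at this
      exact this.trans (mul_le_mul_of_nonneg_right (Real.sqrt_le_sqrt hRA) (Real.sqrt_nonneg _))
    have hlw : 1 + Real.log (1 + 1 / w) ≤ 4 * lg X := by
      have h5 : 1 / w ≤ 8 * X := by
        rw [hz0] at hw
        have := one_div_lt_one_div_of_lt hz0p hw
        rw [hz0, one_div_one_div] at this
        exact this.le
      have h6 : 1 + 1 / w ≤ 9 * X := by linarith
      have h7 : Real.log (1 + 1 / w) ≤ Real.log (9 * X) := Real.log_le_log (by positivity) h6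
      have h8 : Real.log (9 * X) = Real.log 9 + Real.log X := Real.log_mul (by norm_num) hX0.ne'
      have h9 := log_nine_le
      unfold lg
      linarith
    have hlw0 : 0 ≤ Real.log (1 + 1 / w) := Real.log_nonneg (by
      have : 0 < 1 / w := by positivity
      linarith)
    -- the square root
    have h11 : Real.sqrt (∑ d ∈ D2, N1 p.e (kw p N w) N d ^ 2) ≤ C0 * Real.sqrt C1 *
        (2 * Real.sqrt (lg X)) * ((Real.sqrt X + w ^ (-(1 / 2) : ℝ)) *
        w ^ (-(1 / 4) : ℝ) * Real.exp (-(w / 8))) := by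
      refine Real.sqrt_le_iff.mpr ⟨by positivity, h3.trans ?_⟩
      have q1 : Real.sqrt C1 ^ 2 = C1 := Real.sq_sqrt hC1.le
      have q3 : Real.sqrt (lg X) ^ 2 = lg X := Real.sq_sqrt hL.le
      have q4 : (w ^ (-(1 / 4) : ℝ)) ^ 2 = w ^ (-(1 / 2) : ℝ) := by
        rw [← Real.rpow_natCast, ← Real.rpow_mul hw0.le]
        norm_num
      have q5 : Real.exp (-(w / 8)) ^ 2 = Real.exp (-(w / 4)) := by
        rw [← Real.exp_nat_mul]
        congr 1
        push_cast
        ring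
      have q6 : (w ^ (-(1 / 2) : ℝ)) ^ 2 = 1 / w := by
        rw [← Real.rpow_natCast, ← Real.rpow_mul hw0.le,
          show (-(1 / 2) : ℝ) * ((2 : ℕ) : ℝ) = -1 by norm_num, Real.rpow_neg_one, one_div]
      have q7 : Real.sqrt X ^ 2 = X := Real.sq_sqrt hX0.le
      have q8 : (X : ℝ) + 1 / w ≤ (Real.sqrt X + w ^ (-(1 / 2) : ℝ)) ^ 2 := by
        rw [add_sq, q7, q6]
        have : 0 ≤ 2 * (Real.sqrt X) * w ^ (-(1 / 2) : ℝ) := by positivity
        linarith
      calc C0 ^ 2 * (C1 * ((X : ℝ) + 1 / w) * w ^ (-(1 / 2) : ℝ) *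
            (1 + Real.log (1 + 1 / w)) * Real.exp (-(w / 4)))
          ≤ C0 ^ 2 * (C1 * (Real.sqrt X + w ^ (-(1 / 2) : ℝ)) ^ 2 * w ^ (-(1 / 2) : ℝ) *
            (4 * lg X) * Real.exp (-(w / 4))) := by
            gcongr
        _ = (C0 * Real.sqrt C1 * (2 * Real.sqrt (lg X)) *
            ((Real.sqrt X + w ^ (-(1 / 2) : ℝ)) * w ^ (-(1 / 4) : ℝ) *
              Real.exp (-(w / 8)))) ^ 2 := by
            simp only [mul_pow]
            rw [q1, q3, q4, q5]
            ring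
    have h12 : ∑ d ∈ D2, |u d| * |N1 p.e (kw p N w) N d| ≤
        K * ((Real.sqrt X + w ^ (-(1 / 2) : ℝ)) *
        w ^ (-(1 / 4) : ℝ) * Real.exp (-(w / 8))) := by
      refine h4.trans ((mul_le_mul_of_nonneg_left h11 (Real.sqrt_nonneg _)).trans (le_of_eq ?_))
      rw [hK]
      ring
    have r1 : w ^ (-(3 / 4) : ℝ) * w ^ (-(1 / 4) : ℝ) = w⁻¹ := by
      rw [← Real.rpow_add hw0, ← Real.rpow_neg_one]
      norm_num
    have r2 : w ^ (-(1 / 2) : ℝ) * w⁻¹ = w ^ (-(3 / 2) : ℝ) := by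
      rw [← Real.rpow_neg_one, ← Real.rpow_add hw0]
      norm_num
    calc w ^ (-(3 / 4) : ℝ) * ∑ d ∈ D2, |u d| * |N1 p.e (kw p N w) N d|
        ≤ w ^ (-(3 / 4) : ℝ) * (K * ((Real.sqrt X + w ^ (-(1 / 2) : ℝ)) *
          w ^ (-(1 / 4) : ℝ) * Real.exp (-(w / 8)))) :=
          mul_le_mul_of_nonneg_left h12 (Real.rpow_nonneg hw0.le _)
      _ = K * (Real.sqrt X * ((w ^ (-(3 / 4) : ℝ) * w ^ (-(1 / 4) : ℝ)) *
          Real.exp (-(w / 8))) +
          w ^ (-(1 / 2) : ℝ) * (w ^ (-(3 / 4) : ℝ) * w ^ (-(1 / 4) : ℝ)) * Real.exp (-(w / 8))) := by ring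
      _ = K * (Real.sqrt X * (w⁻¹ * Real.exp (-(w / 8))) +
          w ^ (-(3 / 2) : ℝ) * Real.exp (-(w / 8))) := by rw [r1, r2]
      _ ≤ K * (Real.sqrt X * (w⁻¹ * Real.exp (-(w / 8))) + w ^ (-(3 / 2) : ℝ)) := by
          refine mul_le_mul_of_nonneg_left (add_le_add le_rfl ?_) hK0
          refine mul_le_of_le_one_right (Real.rpow_nonneg hw0.le _) ?_
          rw [Real.exp_le_one_iff]
          linarith
  -- step B
  obtain ⟨i1, v1⟩ := int_one hz0p hz01
  obtain ⟨i2, v2⟩ := int_two hz0p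
  have habs2 : ∀ d, IntegrableOn (fun w : ℝ => w ^ (-(3 / 4) : ℝ) *
      (|u d| * |N1 p.e (kw p N w) N d|)) (Set.Ioi z0) := by
    intro d
    refine ((habs d).const_mul |u d|).congr (Eventually.of_forall fun w => ?_)
    ring
  have hsumI : IntegrableOn (fun w : ℝ => w ^ (-(3 / 4) : ℝ) *
      ∑ d ∈ D2, |u d| * |N1 p.e (kw p N w) N d|) (Set.Ioi z0) := by
    simp only [Finset.mul_sum]
    exact integrable_finsetSum _ fun d _ => habs2 d
  have hB : ∑ d ∈ D2, |u d| * Gint p X N d ≤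
      K * (Real.sqrt X * (Real.log (1 / z0) + 8) + 2 * z0 ^ (-(1 / 2) : ℝ)) := by
    calc ∑ d ∈ D2, |u d| * Gint p X N d
        = ∑ d ∈ D2, ∫ w in Set.Ioi z0, w ^ (-(3 / 4) : ℝ) *
          (|u d| * |N1 p.e (kw p N w) N d|) := by
          refine Finset.sum_congr rfl fun d _ => ?_
          unfold Gint
          rw [← integral_const_mul]
          refine integral_congr_ae (Eventually.of_forall fun w => ?_)
          ring
      _ = ∫ w in Set.Ioi z0, w ^ (-(3 / 4) : ℝ) *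
          ∑ d ∈ D2, |u d| * |N1 p.e (kw p N w) N d| := by
          rw [← integral_finsetSum _ fun d _ => habs2 d]
          simp only [Finset.mul_sum]
      _ ≤ ∫ w in Set.Ioi z0, K * (Real.sqrt X * (w⁻¹ * Real.exp (-(w / 8))) +
          w ^ (-(3 / 2) : ℝ)) :=
          setIntegral_mono_on hsumI (((i1.const_mul _).add i2).const_mul K) measurableSet_Ioi hC
      _ = K * (Real.sqrt X * (∫ w in Set.Ioi z0, w⁻¹ * Real.exp (-(w / 8))) +
          ∫ w in Set.Ioi z0, w ^ (-(3 / 2) : ℝ)) := by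
          rw [integral_const_mul, integral_add (i1.const_mul _) i2, integral_const_mul]
      _ ≤ K * (Real.sqrt X * (Real.log (1 / z0) + 8) + 2 * z0 ^ (-(1 / 2) : ℝ)) := by
          rw [v2]
          gcongr
  have e1 : 1 / z0 = 8 * X := by rw [hz0, one_div_one_div]
  have e2 : Real.log (1 / z0) + 8 ≤ 12 * lg X := by
    rw [e1, Real.log_mul (by positivity) hX0.ne']
    have h13 : Real.log 8 ≤ Real.log 9 := Real.log_le_log (by positivity) (by norm_num)
    have h9 := log_nine_le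
    unfold lg
    linarith
  have e3 : z0 ^ (-(1 / 2) : ℝ) ≤ 3 * Real.sqrt X := by
    rw [Real.rpow_neg hz0p.le, ← Real.inv_rpow hz0p.le, ← one_div, e1, ← Real.sqrt_eq_rpow]
    have : (3 : ℝ) * Real.sqrt X = Real.sqrt (9 * X) := by
      rw [Real.sqrt_mul (by norm_num), show (9 : ℝ) = 3 ^ 2 by norm_num, Real.sqrt_sq (by norm_num)]
    rw [this]
    refine Real.sqrt_le_sqrt ?_
    linarith
  refine hB.trans ?_
  calc K * (Real.sqrt X * (Real.log (1 / z0) + 8) + 2 * z0 ^ (-(1 / 2) : ℝ))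
      ≤ K * (Real.sqrt X * (12 * lg X) + 2 * (3 * Real.sqrt X)) := by gcongr
    _ ≤ K * (18 * (Real.sqrt X * lg X)) := by
        refine mul_le_mul_of_nonneg_left ?_ hK0
        have h1 := Real.sqrt_nonneg (X : ℝ)
        nlinarith
    _ = C0 * Real.sqrt C1 * 2 * 18 * Real.sqrt V * Real.sqrt X * (lg X * Real.sqrt (lg X)) := by
        rw [hK]
        ring


theorem Gint_nonneg (p : Par) (X N d : ℕ) (hX : 1 ≤ X) : 0 ≤ Gint p X N d := by
  unfold Gint
  have hX0 : (0 : ℝ) < X := by exact_mod_cast hX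
  refine setIntegral_nonneg measurableSet_Ioi fun w hw => ?_
  have hw0 : (0 : ℝ) < w := lt_trans (by positivity) hw
  exact mul_nonneg (Real.rpow_nonneg hw0.le _) (abs_nonneg _)

theorem EN_le_Gint (ker : S_KER) (p : Par) (hp : p.ok) (X N d : ℕ) (hX : 1 ≤ X) (z : ℝ)
    (hz : 1 / (8 * (X : ℝ)) ≤ z) : |EN p N d z| ≤ Gint p X N d := by
  obtain ⟨_, k1⟩ := ker
  have hX0 : (0 : ℝ) < X := by exact_mod_cast hX
  have hz0p : 0 < 1 / (8 * (X : ℝ)) := by positivity
  have hzy : 0 < z := lt_of_lt_of_le hz0p hz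
  have habs : IntegrableOn (fun w : ℝ => w ^ (-(3 / 4) : ℝ) * |N1 p.e (kw p N w) N d|)
      (Set.Ioi (1 / (8 * (X : ℝ)))) := by
    refine (k1 p hp N d _ hz0p).1.abs.congr ?_
    rw [EventuallyEq, ae_restrict_iff' measurableSet_Ioi]
    refine Eventually.of_forall fun w hw => ?_
    have hw0 : (0 : ℝ) < w := lt_trans hz0p hw
    rw [abs_mul, abs_of_nonneg (Real.rpow_nonneg hw0.le _)]
  rw [(k1 p hp N d _ hzy).2]
  calc |∫ w in Set.Ioi z, w ^ (-(3 / 4) : ℝ) * N1 p.e (kw p N w) N d|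
      ≤ ∫ w in Set.Ioi z, |w ^ (-(3 / 4) : ℝ) * N1 p.e (kw p N w) N d| :=
        abs_integral_le_integral_abs
    _ = ∫ w in Set.Ioi z, w ^ (-(3 / 4) : ℝ) * |N1 p.e (kw p N w) N d| := by
        refine setIntegral_congr_fun measurableSet_Ioi fun w hw => ?_
        have hw0 : (0 : ℝ) < w := lt_trans hzy hw
        rw [abs_mul, abs_of_nonneg (Real.rpow_nonneg hw0.le _)]
    _ ≤ Gint p X N d := by
        refine setIntegral_mono_set habs ?_ (Set.Ioi_subset_Ioi hz).eventuallyLE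
        rw [EventuallyLE, ae_restrict_iff' measurableSet_Ioi]
        refine Eventually.of_forall fun w hw => ?_
        have hw0 : (0 : ℝ) < w := lt_trans hz0p hw
        exact mul_nonneg (Real.rpow_nonneg hw0.le _) (abs_nonneg _)

/-- the squares, `z ≥ 1` -/
theorem ES_bd_one (kra : S_KRA) (ker : S_KER) (ks : S_KS) : ∃ C : ℝ, 0 < C ∧ ∀ p : Par, p.ok →
    ∀ (N d : ℕ) (z : ℝ), 1 ≤ z → |ES p N d z| ≤ C * 8 := by
  obtain ⟨⟨C0, hC0, k0⟩, k1⟩ := ker
  obtain ⟨C2, hC2, k2⟩ := ks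
  refine ⟨C0 * C2, by positivity, fun p hp N d z hz1 => ?_⟩
  have hz : 0 < z := by linarith
  obtain ⟨ia, ea⟩ := kra p hp N d z hz
  obtain ⟨ib, eb⟩ := k1 p hp N d z hz
  obtain ⟨i0, v0⟩ := int_one one_pos le_rfl
  have i1 : IntegrableOn (fun w : ℝ => w⁻¹ * Real.exp (-(w / 8))) (Set.Ioi z) :=
    i0.mono_set (Set.Ioi_subset_Ioi hz1)
  have v1 : ∫ w in Set.Ioi z, w⁻¹ * Real.exp (-(w / 8)) ≤ 8 := by
    have h1 : ∫ w in Set.Ioi z, w⁻¹ * Real.exp (-(w / 8)) ≤ ∫ w in Set.Ioi 1, w⁻¹ * Real.exp (-(w / 8)) := by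
      refine setIntegral_mono_set i0 ?_ (Set.Ioi_subset_Ioi hz1).eventuallyLE
      rw [EventuallyLE, ae_restrict_iff' measurableSet_Ioi]
      refine Eventually.of_forall fun w hw => ?_
      have hw0 : (0 : ℝ) < w := lt_trans one_pos hw
      exact mul_nonneg (inv_nonneg.2 hw0.le) (Real.exp_pos _).le
    have h2 : Real.log (1 / 1 : ℝ) = 0 := by norm_num
    rw [h2] at v0
    linarith
  have e : ES p N d z = ∫ w in Set.Ioi z, (w ^ (-(3 / 4) : ℝ) * NA p.e (kw p N w) N d -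
      w ^ (-(3 / 4) : ℝ) * N1 p.e (kw p N w) N d) := by
    rw [integral_sub ia ib, ← ea, ← eb]
    unfold EA
    ring
  rw [e]
  have hpt : ∀ w ∈ Set.Ioi z, ‖w ^ (-(3 / 4) : ℝ) * NA p.e (kw p N w) N d -
      w ^ (-(3 / 4) : ℝ) * N1 p.e (kw p N w) N d‖ ≤ C0 * C2 * (w⁻¹ * Real.exp (-(w / 8))) := by
    intro w hw
    have hw0 : (0 : ℝ) < w := lt_trans hz hw
    rw [← mul_sub, NA_sub, Real.norm_eq_abs, abs_mul, abs_of_nonneg (Real.rpow_nonneg hw0.le _)]
    have h1 : |∑ n ∈ (Icc 1 N).filter (fun n => Odd n ∧ IsSquare n),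
        js (p.e * (d : ℤ)) n * kw p N w n| ≤ C0 * (C2 * w ^ (-(1 / 4) : ℝ) * Real.exp (-(w / 2))) := by
      refine (Finset.abs_sum_le_sum_abs _ _).trans ?_
      refine (Finset.sum_le_sum (g := fun n : ℕ => C0 * kap ((n : ℝ) ^ 2 * w)) fun n hn => ?_).trans ?_
      · have hn1 := (Finset.mem_Icc.mp (Finset.mem_filter.mp hn).1).1
        rw [abs_mul]
        refine (mul_le_of_le_one_left (abs_nonneg _) (gwe_js_abs _ _)).trans ?_
        exact k0 p hp N n w hn1 hw0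
      · rw [← Finset.mul_sum]
        refine mul_le_mul_of_nonneg_left ?_ (by linarith)
        exact (sq_kap N hw0).trans (k2 w N hw0)
    have r1 : w ^ (-(3 / 4) : ℝ) * w ^ (-(1 / 4) : ℝ) = w⁻¹ := by
      rw [← Real.rpow_add hw0, ← Real.rpow_neg_one]
      norm_num
    calc w ^ (-(3 / 4) : ℝ) * |∑ n ∈ (Icc 1 N).filter (fun n => Odd n ∧ IsSquare n),
          js (p.e * (d : ℤ)) n * kw p N w n|
        ≤ w ^ (-(3 / 4) : ℝ) * (C0 * (C2 * w ^ (-(1 / 4) : ℝ) * Real.exp (-(w / 2)))) :=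
          mul_le_mul_of_nonneg_left h1 (Real.rpow_nonneg hw0.le _)
      _ = C0 * C2 * ((w ^ (-(3 / 4) : ℝ) * w ^ (-(1 / 4) : ℝ)) * Real.exp (-(w / 2))) := by ring
      _ = C0 * C2 * (w⁻¹ * Real.exp (-(w / 2))) := by rw [r1]
      _ ≤ C0 * C2 * (w⁻¹ * Real.exp (-(w / 8))) := by
          refine mul_le_mul_of_nonneg_left (mul_le_mul_of_nonneg_left ?_ (by positivity)) (by positivity)
          exact Real.exp_le_exp.2 (by linarith)
  calc |∫ w in Set.Ioi z, (w ^ (-(3 / 4) : ℝ) * NA p.e (kw p N w) N d -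
      w ^ (-(3 / 4) : ℝ) * N1 p.e (kw p N w) N d)|
      ≤ ∫ w in Set.Ioi z, C0 * C2 * (w⁻¹ * Real.exp (-(w / 8))) := by
        rw [← Real.norm_eq_abs]
        refine norm_integral_le_of_norm_le (i1.const_mul _) ?_
        rw [ae_restrict_iff' measurableSet_Ioi]
        exact Eventually.of_forall hpt
    _ = C0 * C2 * ∫ w in Set.Ioi z, w⁻¹ * Real.exp (-(w / 8)) := by rw [integral_const_mul]
    _ ≤ C0 * C2 * 8 := mul_le_mul_of_nonneg_left v1 (by positivity)

theorem t_MSQ (ls1 : S_LS1) (ker : S_KER) (kra : S_KRA) (ks : S_KS) : Pool.Agent.H28.BR3.S_MSQ := by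
  obtain ⟨C1, hC1, h1⟩ := G_bd ls1 ker
  obtain ⟨C2, hC2, h2⟩ := ES_bd kra ker ks
  obtain ⟨C3, hC3, h3⟩ := ES_bd_one kra ker ks
  refine ⟨2 * C1 ^ 2 + 2 * ((C2 + C3) * 12) ^ 2, by positivity, fun p hp c hc8 hco X N z hX hz => ?_⟩
  have hX1 : (1 : ℝ) ≤ X := by exact_mod_cast hX
  have hX0 : (0 : ℝ) < X := by linarith
  have hL0 : 0 ≤ Real.log X := Real.log_nonneg hX1
  have hL1 : 1 ≤ lg X := by unfold lg; linarith
  have hL : 0 < lg X := by linarith
  set D2 : Finset ℕ := (Icc 1 X).filter (fun d => d % 8 = c) with hD2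
  -- the mean square of `Gint`
  have hG : ∑ d ∈ D2, Gint p X N d ^ 2 ≤ C1 ^ 2 * (X * lg X ^ 3) := by
    have h4 := h1 p hp c hc8 hco X N (fun d => Gint p X N d) hX
    rw [← hD2] at h4
    set S : ℝ := ∑ d ∈ D2, Gint p X N d ^ 2 with hS
    have hS0 : 0 ≤ S := Finset.sum_nonneg fun _ _ => sq_nonneg _
    have h5 : ∑ d ∈ D2, |Gint p X N d| * Gint p X N d = S := by
      refine Finset.sum_congr rfl fun d _ => ?_
      rw [abs_of_nonneg (Gint_nonneg p X N d hX)]
      ring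
    rw [h5] at h4
    set s := Real.sqrt S with hs
    have hs0 : 0 ≤ s := Real.sqrt_nonneg S
    have hss : s ^ 2 = S := Real.sq_sqrt hS0
    set M : ℝ := C1 * Real.sqrt X * (lg X * Real.sqrt (lg X)) with hM
    have hM0 : 0 ≤ M := by positivity
    have h6 : s ^ 2 ≤ s * M := by
      rw [hss]
      refine h4.trans (le_of_eq ?_)
      rw [hM]
      ring
    have h7 : s ≤ M := by
      rcases hs0.eq_or_lt with h8 | h8
      · rw [← h8]
        exact hM0
      · have : s * s ≤ s * M := by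
          rw [← sq]
          exact h6
        exact le_of_mul_le_mul_left this h8
    have h8 : M ^ 2 = C1 ^ 2 * (X * lg X ^ 3) := by
      rw [hM, mul_pow, mul_pow, mul_pow, Real.sq_sqrt hX0.le, Real.sq_sqrt hL.le]
      ring
    rw [← h8, ← hss]
    exact pow_le_pow_left₀ hs0 h7 2
  have hS : ∀ d ∈ D2, |ES p N d (z d)| ≤ (C2 + C3) * (12 * lg X) := by
    intro d hd
    have hd' : d ∈ Icc 1 X := (Finset.mem_filter.1 hd).1
    have hzd := hz d hd'
    have hz0 : 0 < z d := lt_of_lt_of_le (by positivity) hzd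
    rcases le_total (z d) 1 with h4 | h4
    · refine (h2 p hp N d _ hz0 h4).trans ?_
      have h5 : Real.log (1 / z d) + 8 ≤ 12 * lg X := by
        have h6 : 1 / z d ≤ 8 * X := by
          have := one_div_le_one_div_of_le (by positivity) hzd
          rwa [one_div_one_div] at this
        have h7 : Real.log (1 / z d) ≤ Real.log (8 * X) := Real.log_le_log (by positivity) h6
        rw [Real.log_mul (by norm_num) hX0.ne'] at h7
        have h13 : Real.log 8 ≤ Real.log 9 := Real.log_le_log (by norm_num) (by norm_num)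
        have h9 := log_nine_le
        unfold lg
        linarith
      have h6 : C2 * (Real.log (1 / z d) + 8) ≤ C2 * (12 * lg X) := mul_le_mul_of_nonneg_left h5 hC2.le
      have h7 : 0 ≤ C3 * (12 * lg X) := by positivity
      rw [add_mul]
      linarith
    · refine (h3 p hp N d _ h4).trans ?_
      have h6 : C3 * 8 ≤ C3 * (12 * lg X) := mul_le_mul_of_nonneg_left (by linarith) hC3.le
      have h7 : 0 ≤ C2 * (12 * lg X) := by positivity
      rw [add_mul]
      linarith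
  have hcard : ((D2.card : ℕ) : ℝ) ≤ X := by
    have h3 : D2.card ≤ (Icc 1 X).card := Finset.card_le_card (Finset.filter_subset _ _)
    rw [Nat.card_Icc] at h3
    have h4 : D2.card ≤ X := by omega
    exact_mod_cast h4
  have hlg : lg X ^ 2 ≤ lg X ^ 3 := pow_le_pow_right₀ hL1 (by norm_num)
  calc ∑ d ∈ D2, EA p N d (z d) ^ 2
      ≤ ∑ d ∈ D2, (2 * Gint p X N d ^ 2 + 2 * ((C2 + C3) * (12 * lg X)) ^ 2) := by
        refine Finset.sum_le_sum fun d hd => ?_
        have hd' : d ∈ Icc 1 X := (Finset.mem_filter.1 hd).1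
        have h4 := EN_le_Gint ker p hp X N d hX (z d) (hz d hd')
        have h5 := hS d hd
        have h6 : EN p N d (z d) ^ 2 ≤ Gint p X N d ^ 2 := by
          rw [← sq_abs]
          exact pow_le_pow_left₀ (abs_nonneg _) h4 2
        have h7 : ES p N d (z d) ^ 2 ≤ ((C2 + C3) * (12 * lg X)) ^ 2 := by
          rw [← sq_abs]
          exact pow_le_pow_left₀ (abs_nonneg _) h5 2
        unfold EA
        nlinarith [sq_nonneg (EN p N d (z d) - ES p N d (z d))]
    _ = 2 * ∑ d ∈ D2, Gint p X N d ^ 2 + D2.card * (2 * ((C2 + C3) * (12 * lg X)) ^ 2) := by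
        rw [Finset.sum_add_distrib, ← Finset.mul_sum, Finset.sum_const, nsmul_eq_mul]
    _ ≤ 2 * (C1 ^ 2 * (X * lg X ^ 3)) + X * (2 * ((C2 + C3) * 12) ^ 2 * lg X ^ 3) := by
        have h8 : 2 * ((C2 + C3) * (12 * lg X)) ^ 2 ≤ 2 * ((C2 + C3) * 12) ^ 2 * lg X ^ 3 := by
          have e : 2 * ((C2 + C3) * (12 * lg X)) ^ 2 = 2 * ((C2 + C3) * 12) ^ 2 * lg X ^ 2 := by ring
          rw [e]
          exact mul_le_mul_of_nonneg_left hlg (by positivity)
        refine add_le_add (mul_le_mul_of_nonneg_left hG (by norm_num)) ?_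
        exact mul_le_mul hcard h8 (by positivity) hX0.le
    _ = (2 * C1 ^ 2 + 2 * ((C2 + C3) * 12) ^ 2) * (X * lg X ^ 3) := by ring

end

end Pool.Agent.H68.BR
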